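import Mathlib

/-!
# Irreducible families of matrices and the logarithmic derivative of the determinant
-/

set_option autoImplicit false

open Matrix

namespace Pool.Agent.Q110.Lind

variable {d m : ℕ}

/-- complex matrices -/
abbrev Mat (d : ℕ) := Matrix (Fin d) (Fin d) ℂ

theorem proj_trivial (L : Fin m → Mat d) (hL : Algebra.adjoin ℂ (Set.range L) = ⊤) (P : Mat d)
    (hP : P * P = P) (h : ∀ j, (1 - P) * L j * P = 0) : P = 0 ∨ P = 1 := by
  have h0 : (1 - P) * P = 0 := by rw [sub_mul, one_mul, hP, sub_self]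
  let S : Subalgebra ℂ (Mat d) :=
    { carrier := {X | (1 - P) * X * P = 0}
      mul_mem' := by
        intro X Y hX hY
        have hX' : (1 - P) * X * P = 0 := hX
        have hY' : (1 - P) * Y * P = 0 := hY
        show (1 - P) * (X * Y) * P = 0
        have : (1 - P) * (X * Y) * P = (1 - P) * X * P * (Y * P) + (1 - P) * X * ((1 - P) * Y * P) := by
          noncomm_ring
        rw [this, hX', hY', zero_mul, mul_zero, add_zero]
      add_mem' := by
        intro X Y hX hY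
        have hX' : (1 - P) * X * P = 0 := hX
        have hY' : (1 - P) * Y * P = 0 := hY
        show (1 - P) * (X + Y) * P = 0
        rw [mul_add, add_mul, hX', hY', add_zero]
      algebraMap_mem' := by
        intro c
        show (1 - P) * (algebraMap ℂ (Mat d) c) * P = 0
        rw [Algebra.algebraMap_eq_smul_one, mul_smul_comm, mul_one, smul_mul_assoc, h0, smul_zero] }
  have hS : S = ⊤ := by
    rw [eq_top_iff, ← hL]
    refine Algebra.adjoin_le ?_
    rintro X ⟨j, rfl⟩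
    exact h j
  have hall : ∀ X : Mat d, (1 - P) * X * P = 0 := by
    intro X
    have : X ∈ S := by rw [hS]; exact Algebra.mem_top
    exact this
  by_cases hP0 : P = 0
  · exact Or.inl hP0
  · right
    obtain ⟨b, c, hbc⟩ : ∃ b c, P b c ≠ 0 := by
      by_contra hc
      push Not at hc
      exact hP0 (by ext i j; exact hc i j)
    have h1 : (1 - P) = 0 := by
      ext a a'
      have h2 := congrFun (congrFun (hall (Matrix.single a' b 1)) a) c
      rw [Matrix.mul_assoc, Matrix.mul_apply] at h2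
      rw [Finset.sum_eq_single a'] at h2
      · rw [Matrix.single_mul_apply_same, one_mul] at h2
        rw [Matrix.zero_apply] at h2 ⊢
        exact (mul_eq_zero.1 h2).resolve_right hbc
      · intro x _ hx
        have h3 : (Matrix.single a' b (1 : ℂ) * P) x c = 0 := by
          rw [Matrix.mul_apply]
          refine Finset.sum_eq_zero fun k _ => ?_
          rw [Matrix.single_apply, if_neg (fun h => hx h.1.symm), zero_mul]
        rw [h3, mul_zero]
      · intro h; exact (h (Finset.mem_univ _)).elim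
    rw [sub_eq_zero] at h1
    exact h1.symm

/-- the mass that the matrices `L` send from the directions in `S` to the other ones -/
noncomputable def cut (L : Fin m → Mat d) (S : Finset (Fin d)) (U : Mat d) : ℝ :=
  ∑ j, ∑ i ∈ Sᶜ, ∑ l ∈ S, ‖(Uᴴ * L j * U) i l‖ ^ 2

theorem cut_pos (L : Fin m → Mat d) (hL : Algebra.adjoin ℂ (Set.range L) = ⊤) (S : Finset (Fin d))
    (hS : S.Nonempty) (hS' : Sᶜ.Nonempty) (U : Mat d) (hU : Uᴴ * U = 1) : 0 < cut L S U := by
  have hU' : U * Uᴴ = 1 := mul_eq_one_comm.1 hU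
  have hnn : ∀ j, 0 ≤ ∑ i ∈ Sᶜ, ∑ l ∈ S, ‖(Uᴴ * L j * U) i l‖ ^ 2 := fun j =>
    Finset.sum_nonneg fun i _ => Finset.sum_nonneg fun l _ => sq_nonneg _
  refine lt_of_le_of_ne (Finset.sum_nonneg fun j _ => hnn j) ?_
  intro h0
  have h1 : ∀ j, ∀ i ∈ Sᶜ, ∀ l ∈ S, (Uᴴ * L j * U) i l = 0 := by
    intro j i hi l hl
    have h2 := (Finset.sum_eq_zero_iff_of_nonneg (fun j _ => hnn j)).1 h0.symm j (Finset.mem_univ _)
    have h3 := (Finset.sum_eq_zero_iff_of_nonneg
      (fun i _ => Finset.sum_nonneg fun l _ => sq_nonneg _)).1 h2 i hi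
    have h4 := (Finset.sum_eq_zero_iff_of_nonneg (fun l _ => sq_nonneg _)).1 h3 l hl
    exact norm_eq_zero.1 (pow_eq_zero_iff (two_ne_zero)|>.1 h4)
  set Q : Mat d := Matrix.diagonal (fun i => if i ∈ S then (1 : ℂ) else 0) with hQ
  have hQQ : Q * Q = Q := by
    rw [hQ, Matrix.diagonal_mul_diagonal]
    congr 1
    funext i
    split_ifs <;> simp
  have hQB : ∀ j, (1 - Q) * (Uᴴ * L j * U) * Q = 0 := by
    intro j
    have hd : (1 - Q) = Matrix.diagonal (fun i => if i ∈ S then (0 : ℂ) else 1) := by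
      rw [hQ, ← Matrix.diagonal_one, Matrix.diagonal_sub]
      congr 1
      funext i
      split_ifs <;> simp
    rw [hd, hQ]
    ext i l
    rw [Matrix.mul_diagonal, Matrix.diagonal_mul, Matrix.zero_apply]
    by_cases hi : i ∈ S
    · rw [if_pos hi, zero_mul, zero_mul]
    · by_cases hl : l ∈ S
      · rw [h1 j i (Finset.mem_compl.2 hi) l hl, mul_zero, zero_mul]
      · rw [if_neg hl, mul_zero]
  have hP := proj_trivial L hL (U * Q * Uᴴ) (by
      calc U * Q * Uᴴ * (U * Q * Uᴴ) = U * Q * (Uᴴ * U) * Q * Uᴴ := by noncomm_ring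
        _ = U * (Q * Q) * Uᴴ := by rw [hU]; noncomm_ring
        _ = U * Q * Uᴴ := by rw [hQQ]) (by
      intro j
      have h5 : (1 - U * Q * Uᴴ) = U * (1 - Q) * Uᴴ := by
        rw [mul_sub, sub_mul, mul_one, hU']
      calc (1 - U * Q * Uᴴ) * L j * (U * Q * Uᴴ) = U * ((1 - Q) * (Uᴴ * L j * U) * Q) * Uᴴ := by
            rw [h5]; noncomm_ring
        _ = 0 := by rw [hQB, mul_zero, zero_mul])
  have hback : Q = Uᴴ * (U * Q * Uᴴ) * U := by
    calc Q = (Uᴴ * U) * Q * (Uᴴ * U) := by rw [hU, one_mul, mul_one]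
      _ = _ := by noncomm_ring
  obtain ⟨i, hi⟩ := hS
  obtain ⟨i', hi'⟩ := hS'
  rw [Finset.mem_compl] at hi'
  rcases hP with h | h
  · rw [h, mul_zero, zero_mul] at hback
    have h6 := congrFun (congrFun hback i) i
    rw [hQ, Matrix.diagonal_apply_eq, if_pos hi, Matrix.zero_apply] at h6
    exact one_ne_zero h6
  · rw [h, mul_one, hU] at hback
    have h6 := congrFun (congrFun hback i') i'
    rw [hQ, Matrix.diagonal_apply_eq, if_neg hi', Matrix.one_apply_eq] at h6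
    exact zero_ne_one h6

theorem unitary_compact : IsCompact {U : Mat d | Uᴴ * U = 1} := by
  have h1 : IsCompact {U : Mat d | ∀ i j, U i j ∈ Metric.closedBall (0 : ℂ) 1} := by
    have h2 : IsCompact (Set.pi Set.univ (fun _ : Fin d => Set.pi Set.univ
        (fun _ : Fin d => Metric.closedBall (0 : ℂ) 1))) :=
      isCompact_univ_pi fun _ => isCompact_univ_pi fun _ => isCompact_closedBall _ _
    have h3 : {U : Mat d | ∀ i j, U i j ∈ Metric.closedBall (0 : ℂ) 1} =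
        Set.pi Set.univ (fun _ : Fin d => Set.pi Set.univ
        (fun _ : Fin d => Metric.closedBall (0 : ℂ) 1)) := by
      ext U
      exact ⟨fun h i _ j _ => h i j, fun h i j => h i trivial j trivial⟩
    rw [h3]
    exact h2
  refine h1.of_isClosed_subset ?_ ?_
  · exact isClosed_eq (by fun_prop) continuous_const
  · intro U hU i j
    rw [mem_closedBall_zero_iff]
    exact entry_norm_bound_of_unitary (Matrix.mem_unitaryGroup_iff'.2 hU) i j

theorem exists_kappa (L : Fin m → Mat d) (hL : Algebra.adjoin ℂ (Set.range L) = ⊤) :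
    ∃ κ : ℝ, 0 < κ ∧ ∀ S : Finset (Fin d), S.Nonempty → Sᶜ.Nonempty → ∀ U : Mat d, Uᴴ * U = 1 →
      κ ≤ cut L S U := by
  have h1 : ∀ S : Finset (Fin d), ∃ κ : ℝ, 0 < κ ∧ (S.Nonempty → Sᶜ.Nonempty → ∀ U : Mat d,
      Uᴴ * U = 1 → κ ≤ cut L S U) := by
    intro S
    by_cases hS : S.Nonempty ∧ Sᶜ.Nonempty
    · have hne : {U : Mat d | Uᴴ * U = 1}.Nonempty := ⟨1, by simp⟩
      have hc : ContinuousOn (fun U : Mat d => cut L S U) {U : Mat d | Uᴴ * U = 1} := by
        refine Continuous.continuousOn ?_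
        unfold cut
        refine continuous_finsetSum _ fun j _ => continuous_finsetSum _ fun i _ =>
          continuous_finsetSum _ fun l _ => ?_
        have : Continuous (fun U : Mat d => (Uᴴ * L j * U) i l) := by
          have h2 : Continuous (fun U : Mat d => Uᴴ * L j * U) := by fun_prop
          exact h2.matrix_elem i l
        fun_prop
      obtain ⟨U0, hU0, hmin⟩ := unitary_compact.exists_isMinOn hne hc
      exact ⟨cut L S U0, cut_pos L hL S hS.1 hS.2 U0 hU0, fun _ _ U hU => hmin hU⟩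
    · exact ⟨1, one_pos, fun a b => (hS ⟨a, b⟩).elim⟩
  choose κ hκ using h1
  obtain ⟨S0, hS0⟩ := Finite.exists_min κ
  exact ⟨κ S0, (hκ S0).1, fun S hS hS' U hU => (hS0 S).trans ((hκ S).2 hS hS' U hU)⟩

/-- pigeonhole for the eigenvalues -/
theorem pigeonhole (hd : 2 ≤ d) (μ : Fin d → ℝ) (hpos : ∀ i, 0 < μ i) (hsum : ∑ i, μ i = 1) (r : ℝ)
    (hr : 0 ≤ r) (hprod : (∏ i, μ i) * ((d : ℝ) * r ^ (d - 1)) ^ d ≤ 1) :
    ∃ S : Finset (Fin d), S.Nonempty ∧ Sᶜ.Nonempty ∧ ∀ l ∈ S, ∀ i ∉ S, r * μ i ≤ μ l := by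
  classical
  let e := Tuple.sort μ
  have hmono : Monotone (μ ∘ e) := Tuple.monotone_sort μ
  by_contra hcon
  push Not at hcon
  have hstep : ∀ k (hk : k + 1 < d), (μ ∘ e) ⟨k + 1, hk⟩ < r * (μ ∘ e) ⟨k, by omega⟩ := by
    intro k hk
    let S : Finset (Fin d) := Finset.univ.filter (fun l => k < (e.symm l).val)
    obtain ⟨l, hl, i, hi, hli⟩ := hcon S ⟨e ⟨k + 1, hk⟩, by simp [S]⟩
      ⟨e ⟨k, by omega⟩, by simp [S]⟩
    have hl' : k < (e.symm l).val := (Finset.mem_filter.1 hl).2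
    have hi' : (e.symm i).val ≤ k := by
      by_contra hc
      exact hi (Finset.mem_filter.2 ⟨Finset.mem_univ _, not_le.1 hc⟩)
    have h1 : (μ ∘ e) ⟨k + 1, hk⟩ ≤ (μ ∘ e) (e.symm l) := hmono (by
      rw [Fin.le_def]; exact hl')
    have h2 : (μ ∘ e) (e.symm i) ≤ (μ ∘ e) ⟨k, by omega⟩ := hmono (by
      rw [Fin.le_def]; exact hi')
    simp only [Function.comp_apply, Equiv.apply_symm_apply] at h1 h2 ⊢
    calc μ (e ⟨k + 1, hk⟩) ≤ μ l := h1
      _ < r * μ i := hli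
      _ ≤ r * μ (e ⟨k, _⟩) := mul_le_mul_of_nonneg_left h2 hr
  have hpow : ∀ k (hk : k < d), (μ ∘ e) ⟨k, hk⟩ ≤ r ^ k * (μ ∘ e) ⟨0, by omega⟩ := by
    intro k
    induction k with
    | zero => intro hk; rw [pow_zero, one_mul]
    | succ k ih =>
      intro hk
      have h1 := hstep k hk
      have h2 := ih (by omega)
      calc (μ ∘ e) ⟨k + 1, hk⟩ ≤ r * (μ ∘ e) ⟨k, by omega⟩ := h1.le
        _ ≤ r * (r ^ k * (μ ∘ e) ⟨0, by omega⟩) := mul_le_mul_of_nonneg_left h2 hr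
        _ = _ := by ring
  have hstrict : (μ ∘ e) ⟨d - 1, by omega⟩ < r ^ (d - 1) * (μ ∘ e) ⟨0, by omega⟩ := by
    obtain ⟨k, rfl⟩ : ∃ k, d = k + 2 := ⟨d - 2, by omega⟩
    have h1 := hstep k (by omega)
    have h2 := hpow k (by omega)
    calc (μ ∘ e) ⟨k + 1, by omega⟩ < r * (μ ∘ e) ⟨k, by omega⟩ := h1
      _ ≤ r * (r ^ k * (μ ∘ e) ⟨0, by omega⟩) := mul_le_mul_of_nonneg_left h2 hr
      _ = _ := by
        rw [show k + 2 - 1 = k + 1 by omega]; ring
  have hd0 : (0 : ℝ) < d := by exact_mod_cast (by omega : 0 < d)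
  have hmax : 1 ≤ d * (μ ∘ e) ⟨d - 1, by omega⟩ := by
    rw [← hsum]
    calc ∑ i, μ i ≤ ∑ _i : Fin d, (μ ∘ e) ⟨d - 1, by omega⟩ := by
          refine Finset.sum_le_sum fun i _ => ?_
          have : (μ ∘ e) (e.symm i) ≤ (μ ∘ e) ⟨d - 1, by omega⟩ := hmono (by
            rw [Fin.le_def]; have := (e.symm i).2; show (e.symm i).val ≤ d - 1; omega)
          simpa using this
      _ = _ := by rw [Finset.sum_const, Finset.card_univ, Fintype.card_fin, nsmul_eq_mul]
  have hone : 1 < (d : ℝ) * r ^ (d - 1) * (μ ∘ e) ⟨0, by omega⟩ := by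
    calc 1 ≤ d * (μ ∘ e) ⟨d - 1, by omega⟩ := hmax
      _ < d * (r ^ (d - 1) * (μ ∘ e) ⟨0, by omega⟩) := mul_lt_mul_of_pos_left hstrict hd0
      _ = _ := by ring
  have hprod2 : ((μ ∘ e) ⟨0, by omega⟩) ^ d ≤ ∏ i, μ i := by
    calc ((μ ∘ e) ⟨0, by omega⟩) ^ d = ∏ _i : Fin d, (μ ∘ e) ⟨0, by omega⟩ := by
          rw [Finset.prod_const, Finset.card_univ, Fintype.card_fin]
      _ ≤ ∏ i, μ i := by
          refine Finset.prod_le_prod (fun i _ => (hpos _).le) fun i _ => ?_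
          have : (μ ∘ e) ⟨0, by omega⟩ ≤ (μ ∘ e) (e.symm i) := hmono (by
            rw [Fin.le_def]; exact Nat.zero_le _)
          simpa using this
  have hfin : 1 < (∏ i, μ i) * ((d : ℝ) * r ^ (d - 1)) ^ d := by
    calc 1 < ((d : ℝ) * r ^ (d - 1) * (μ ∘ e) ⟨0, by omega⟩) ^ d := one_lt_pow₀ hone (by omega)
      _ = ((μ ∘ e) ⟨0, by omega⟩) ^ d * ((d : ℝ) * r ^ (d - 1)) ^ d := by rw [mul_pow, mul_comm]
      _ ≤ _ := mul_le_mul_of_nonneg_right hprod2 (by positivity)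
  exact absurd hprod (not_le.2 hfin)

/-- the dissipative part of the logarithmic derivative of the determinant -/
noncomputable def G (L : Fin m → Mat d) (ρ : Mat d) : ℝ :=
  ∑ j, (Matrix.trace (ρ⁻¹ * (L j * ρ * (L j)ᴴ))).re

theorem G_eq (L : Fin m → Mat d) (U : Mat d) (hU : Uᴴ * U = 1) (μ : Fin d → ℝ)
    (hμ : ∀ i, 0 < μ i) :
    G L (U * Matrix.diagonal (fun i => (μ i : ℂ)) * Uᴴ) =
      ∑ j, ∑ i, ∑ l, (μ l / μ i) * ‖(Uᴴ * L j * U) i l‖ ^ 2 := by
  have hU' : U * Uᴴ = 1 := mul_eq_one_comm.1 hU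
  have hinv : (U * Matrix.diagonal (fun i => (μ i : ℂ)) * Uᴴ)⁻¹ =
      U * Matrix.diagonal (fun i => ((μ i : ℂ))⁻¹) * Uᴴ := by
    refine Matrix.inv_eq_right_inv ?_
    have hdd : Matrix.diagonal (fun i => (μ i : ℂ)) * Matrix.diagonal (fun i => ((μ i : ℂ))⁻¹) = 1 := by
      rw [Matrix.diagonal_mul_diagonal, ← Matrix.diagonal_one]
      congr 1
      funext i
      exact mul_inv_cancel₀ (by exact_mod_cast (hμ i).ne')
    calc U * Matrix.diagonal (fun i => (μ i : ℂ)) * Uᴴ * (U * Matrix.diagonal (fun i => ((μ i : ℂ))⁻¹) * Uᴴ)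
        = U * (Matrix.diagonal (fun i => (μ i : ℂ)) * (Uᴴ * U) *
            Matrix.diagonal (fun i => ((μ i : ℂ))⁻¹)) * Uᴴ := by noncomm_ring
      _ = 1 := by rw [hU, mul_one, hdd, mul_one, hU']
  unfold G
  refine Finset.sum_congr rfl fun j _ => ?_
  rw [hinv]
  have h1 : Matrix.trace (U * Matrix.diagonal (fun i => ((μ i : ℂ))⁻¹) * Uᴴ *
      (L j * (U * Matrix.diagonal (fun i => (μ i : ℂ)) * Uᴴ) * (L j)ᴴ)) =
      Matrix.trace (Matrix.diagonal (fun i => ((μ i : ℂ))⁻¹) * ((Uᴴ * L j * U) *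
        Matrix.diagonal (fun i => (μ i : ℂ)) * (Uᴴ * L j * U)ᴴ)) := by
    rw [show U * Matrix.diagonal (fun i => ((μ i : ℂ))⁻¹) * Uᴴ *
      (L j * (U * Matrix.diagonal (fun i => (μ i : ℂ)) * Uᴴ) * (L j)ᴴ) =
      U * (Matrix.diagonal (fun i => ((μ i : ℂ))⁻¹) * Uᴴ *
      (L j * (U * Matrix.diagonal (fun i => (μ i : ℂ)) * Uᴴ) * (L j)ᴴ)) by noncomm_ring,
      Matrix.trace_mul_comm]
    congr 1
    rw [Matrix.conjTranspose_mul, Matrix.conjTranspose_mul, Matrix.conjTranspose_conjTranspose]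
    noncomm_ring
  rw [h1]
  set B := Uᴴ * L j * U with hB
  have h2 : Matrix.trace (Matrix.diagonal (fun i => ((μ i : ℂ))⁻¹) *
      (B * Matrix.diagonal (fun i => (μ i : ℂ)) * Bᴴ)) =
      ∑ i, ∑ l, (((μ l / μ i) * ‖B i l‖ ^ 2 : ℝ) : ℂ) := by
    unfold Matrix.trace
    refine Finset.sum_congr rfl fun i _ => ?_
    rw [Matrix.diag_apply, Matrix.diagonal_mul, Matrix.mul_apply, Finset.mul_sum]
    refine Finset.sum_congr rfl fun l _ => ?_
    rw [Matrix.mul_diagonal, Matrix.conjTranspose_apply]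
    have h3 : B i l * star (B i l) = ((‖B i l‖ ^ 2 : ℝ) : ℂ) := by
      rw [Complex.star_def, Complex.mul_conj, Complex.normSq_eq_norm_sq]
    push_cast at h3 ⊢
    rw [← h3]
    ring
  rw [h2, Complex.re_sum]
  refine Finset.sum_congr rfl fun i _ => ?_
  rw [Complex.re_sum]
  exact Finset.sum_congr rfl fun l _ => Complex.ofReal_re _

theorem G_ge (L : Fin m → Mat d) (κ : ℝ) (hκ : ∀ S : Finset (Fin d), S.Nonempty → Sᶜ.Nonempty →
      ∀ U : Mat d, Uᴴ * U = 1 → κ ≤ cut L S U) (hd : 2 ≤ d)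
    (U : Mat d) (hU : Uᴴ * U = 1) (μ : Fin d → ℝ) (hμ : ∀ i, 0 < μ i) (hsum : ∑ i, μ i = 1)
    (r : ℝ) (hr : 0 ≤ r) (hprod : (∏ i, μ i) * ((d : ℝ) * r ^ (d - 1)) ^ d ≤ 1) :
    r * κ ≤ G L (U * Matrix.diagonal (fun i => (μ i : ℂ)) * Uᴴ) := by
  obtain ⟨S, hS, hS', hcut⟩ := pigeonhole hd μ hμ hsum r hr hprod
  rw [G_eq L U hU μ hμ]
  calc r * κ ≤ r * cut L S U := mul_le_mul_of_nonneg_left (hκ S hS hS' U hU) hr
    _ = ∑ j, ∑ i ∈ Sᶜ, ∑ l ∈ S, r * ‖(Uᴴ * L j * U) i l‖ ^ 2 := by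
        unfold cut
        rw [Finset.mul_sum]
        refine Finset.sum_congr rfl fun j _ => ?_
        rw [Finset.mul_sum]
        refine Finset.sum_congr rfl fun i _ => ?_
        rw [Finset.mul_sum]
    _ ≤ ∑ j, ∑ i ∈ Sᶜ, ∑ l ∈ S, (μ l / μ i) * ‖(Uᴴ * L j * U) i l‖ ^ 2 := by
        refine Finset.sum_le_sum fun j _ => Finset.sum_le_sum fun i hi => Finset.sum_le_sum fun l hl => ?_
        refine mul_le_mul_of_nonneg_right ?_ (sq_nonneg _)
        rw [le_div_iff₀ (hμ i)]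
        exact hcut l hl i (Finset.mem_compl.1 hi)
    _ ≤ _ := by
        have hnn : ∀ j i l, 0 ≤ (μ l / μ i) * ‖(Uᴴ * L j * U) i l‖ ^ 2 := fun j i l =>
          mul_nonneg (div_nonneg (hμ l).le (hμ i).le) (sq_nonneg _)
        refine Finset.sum_le_sum fun j _ => ?_
        calc ∑ i ∈ Sᶜ, ∑ l ∈ S, (μ l / μ i) * ‖(Uᴴ * L j * U) i l‖ ^ 2
            ≤ ∑ i ∈ Sᶜ, ∑ l, (μ l / μ i) * ‖(Uᴴ * L j * U) i l‖ ^ 2 :=
              Finset.sum_le_sum fun i _ => Finset.sum_le_sum_of_subset_of_nonneg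
                (Finset.subset_univ _) (fun l _ _ => hnn j i l)
          _ ≤ _ := Finset.sum_le_sum_of_subset_of_nonneg (Finset.subset_univ _)
                (fun i _ _ => Finset.sum_nonneg fun l _ => hnn j i l)

theorem G_nonneg (L : Fin m → Mat d) (U : Mat d) (hU : Uᴴ * U = 1) (μ : Fin d → ℝ)
    (hμ : ∀ i, 0 < μ i) : 0 ≤ G L (U * Matrix.diagonal (fun i => (μ i : ℂ)) * Uᴴ) := by
  rw [G_eq L U hU μ hμ]
  exact Finset.sum_nonneg fun j _ => Finset.sum_nonneg fun i _ => Finset.sum_nonneg fun l _ =>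
    mul_nonneg (div_nonneg (hμ l).le (hμ i).le) (sq_nonneg _)

/-- the spectral theorem in the form used here -/
theorem spectral (A : Mat d) (hA : A.IsHermitian) : ∃ U : Mat d, Uᴴ * U = 1 ∧
    A = U * Matrix.diagonal (fun i => (hA.eigenvalues i : ℂ)) * Uᴴ := by
  refine ⟨hA.eigenvectorUnitary, ?_, ?_⟩
  · have := (hA.eigenvectorUnitary).2
    exact Matrix.mem_unitaryGroup_iff'.1 this
  · have h := hA.spectral_theorem
    rw [Unitary.conjStarAlgAut_apply] at h
    exact h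

end Pool.Agent.Q110.Lind
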