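import Mathlib
import Pool.Agent.Q110.Lind.Spec

/-!
# Trajectories of driven Lindblad equations with measurable locally bounded drive
-/

set_option autoImplicit false

open Matrix MeasureTheory Filter Topology

namespace Pool.Agent.Q110.Lind

variable {d m : ℕ}

/-- the dissipator -/
noncomputable def diss (L : Fin m → Mat d) (X : Mat d) : Mat d :=
  ∑ j, (L j * X * (L j)ᴴ - (1 / 2 : ℂ) • ((L j)ᴴ * L j * X + X * ((L j)ᴴ * L j)))

/-- the Lindbladian with Hamiltonian `H` -/
noncomputable def lind (L : Fin m → Mat d) (H X : Mat d) : Mat d :=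
  (-Complex.I) • (H * X - X * H) + diss L X

/-- the drives: entrywise measurable, locally bounded, Hermitian -/
structure Drive (H : ℝ → Mat d) : Prop where
  meas : ∀ a b, Measurable (fun t => H t a b)
  bdd : ∀ T : ℝ, ∃ B : ℝ, ∀ t, 0 ≤ t → t ≤ T → ∀ a b, ‖H t a b‖ ≤ B
  herm : ∀ t, 0 ≤ t → (H t).IsHermitian

/-- continuous solutions of the integral equation on `[s, ∞)` -/
structure Traj (L : Fin m → Mat d) (H : ℝ → Mat d) (s : ℝ) (x : ℝ → Mat d) : Prop where
  cont : Continuous x
  eq : ∀ t, s ≤ t → ∀ a b, x t a b = x s a b + ∫ τ in s..t, (lind L (H τ) (x τ)) a b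

theorem diss_add (L : Fin m → Mat d) (X Y : Mat d) : diss L (X + Y) = diss L X + diss L Y := by
  unfold diss
  rw [← Finset.sum_add_distrib]
  refine Finset.sum_congr rfl fun j _ => ?_
  simp only [mul_add, add_mul, smul_add]
  abel

theorem diss_smul (L : Fin m → Mat d) (c : ℂ) (X : Mat d) : diss L (c • X) = c • diss L X := by
  unfold diss
  rw [Finset.smul_sum]
  refine Finset.sum_congr rfl fun j _ => ?_
  simp only [mul_smul_comm, smul_mul_assoc, smul_sub, smul_add, smul_comm c (1 / 2 : ℂ)]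

theorem diss_continuous (L : Fin m → Mat d) : Continuous (diss L) := by
  unfold diss
  fun_prop

theorem lind_add (L : Fin m → Mat d) (H X Y : Mat d) :
    lind L H (X + Y) = lind L H X + lind L H Y := by
  unfold lind
  rw [diss_add, mul_add, add_mul]
  rw [show H * X + H * Y - (X * H + Y * H) = (H * X - X * H) + (H * Y - Y * H) by abel, smul_add]
  abel

theorem lind_smul (L : Fin m → Mat d) (H : Mat d) (c : ℂ) (X : Mat d) :
    lind L H (c • X) = c • lind L H X := by
  unfold lind
  rw [diss_smul, mul_smul_comm, smul_mul_assoc, ← smul_sub, smul_add, smul_comm c]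

theorem lind_sub (L : Fin m → Mat d) (H X Y : Mat d) :
    lind L H (X - Y) = lind L H X - lind L H Y := by
  have h := lind_add L H X ((-1 : ℂ) • Y)
  rw [lind_smul] at h
  simpa [sub_eq_add_neg] using h

section integrals

variable {L : Fin m → Mat d} {H : ℝ → Mat d} (hH : Drive H)
include hH

theorem drive_int (a b : Fin d) {p q : ℝ} (hp : 0 ≤ p) (hq : 0 ≤ q) :
    IntervalIntegrable (fun τ => H τ a b) volume p q := by
  obtain ⟨B, hB⟩ := hH.bdd (max p q)
  rw [intervalIntegrable_iff]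
  refine Measure.integrableOn_of_bounded (M := B) (by simp) (hH.meas a b).aestronglyMeasurable ?_
  rw [ae_restrict_iff' measurableSet_uIoc]
  refine Filter.Eventually.of_forall fun τ hτ => hB τ ?_ ?_ a b
  · rcases Set.mem_uIoc.1 hτ with h | h
    · exact hp.trans h.1.le
    · exact hq.trans h.1.le
  · rcases Set.mem_uIoc.1 hτ with h | h
    · exact h.2.trans (le_max_right _ _)
    · exact h.2.trans (le_max_left _ _)

theorem lind_int {x : ℝ → Mat d} (hx : Continuous x) (a b : Fin d) {p q : ℝ} (hp : 0 ≤ p)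
    (hq : 0 ≤ q) : IntervalIntegrable (fun τ => (lind L (H τ) (x τ)) a b) volume p q := by
  have hxe : ∀ a b, Continuous (fun τ => x τ a b) := fun a b => hx.matrix_elem a b
  have h1 : (fun τ => (lind L (H τ) (x τ)) a b) = fun τ =>
      (-Complex.I) * (∑ c, H τ a c * x τ c b - ∑ c, x τ a c * H τ c b) + (diss L (x τ)) a b := by
    funext τ
    simp only [lind, Matrix.add_apply, Matrix.smul_apply, Matrix.sub_apply, Matrix.mul_apply,
      smul_eq_mul]
  rw [h1]
  refine IntervalIntegrable.add ?_ ?_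
  · refine IntervalIntegrable.const_mul ?_ _
    refine IntervalIntegrable.sub ?_ ?_
    · have : (fun τ => ∑ c, H τ a c * x τ c b) = ∑ c, fun τ => H τ a c * x τ c b := by
        funext τ; rw [Finset.sum_apply]
      rw [this]
      exact IntervalIntegrable.sum _ fun c _ =>
        (drive_int hH a c hp hq).mul_continuousOn (hxe c b).continuousOn
    · have : (fun τ => ∑ c, x τ a c * H τ c b) = ∑ c, fun τ => x τ a c * H τ c b := by
        funext τ; rw [Finset.sum_apply]
      rw [this]
      exact IntervalIntegrable.sum _ fun c _ =>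
        (drive_int hH c b hp hq).continuousOn_mul (hxe a c).continuousOn
  · exact (((diss_continuous L).comp hx).matrix_elem a b).intervalIntegrable _ _

/-- real trace pairing -/
noncomputable def pr (Y X : Mat d) : ℝ := (Matrix.trace (Y * X)).re

omit hH in
theorem pr_add (Y X X' : Mat d) : pr Y (X + X') = pr Y X + pr Y X' := by
  unfold pr; rw [mul_add, Matrix.trace_add, Complex.add_re]

omit hH in
theorem pr_sub (Y X X' : Mat d) : pr Y (X - X') = pr Y X - pr Y X' := by
  unfold pr; rw [mul_sub, Matrix.trace_sub, Complex.sub_re]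

omit hH in
theorem pr_continuous (Y : Mat d) : Continuous (pr Y) := by
  unfold pr
  exact Complex.continuous_re.comp (Continuous.matrix_trace (by fun_prop))

omit hH in
theorem pr_sum (Y X : Mat d) : pr Y X = (∑ a, ∑ b, Y a b * X b a).re := by
  unfold pr
  simp only [Matrix.trace, Matrix.diag_apply, Matrix.mul_apply]

theorem traj_sub {s : ℝ} (hs : 0 ≤ s) {x : ℝ → Mat d} (hx : Traj L H s x) {r t : ℝ} (hr : s ≤ r)
    (ht : s ≤ t) (a b : Fin d) :
    x t a b - x r a b = ∫ τ in r..t, (lind L (H τ) (x τ)) a b := by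
  rw [hx.eq t ht a b, hx.eq r hr a b, add_sub_add_left_eq_sub,
    intervalIntegral.integral_interval_sub_left (lind_int hH hx.cont a b hs (hs.trans ht))
      (lind_int hH hx.cont a b hs (hs.trans hr))]

theorem pr_int {x : ℝ → Mat d} (hx : Continuous x) (Y : Mat d) {p q : ℝ} (hp : 0 ≤ p)
    (hq : 0 ≤ q) : IntervalIntegrable (fun τ => pr Y (lind L (H τ) (x τ))) volume p q ∧
    ∫ τ in p..q, pr Y (lind L (H τ) (x τ)) =
      (∑ a, ∑ b, Y a b * ∫ τ in p..q, (lind L (H τ) (x τ)) b a).re := by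
  have h1 : ∀ a b, IntervalIntegrable (fun τ => Y a b * (lind L (H τ) (x τ)) b a) volume p q :=
    fun a b => (lind_int hH hx b a hp hq).const_mul _
  have h2 : ∀ a, IntervalIntegrable (fun τ => ∑ b, Y a b * (lind L (H τ) (x τ)) b a) volume p q := by
    intro a
    have : (fun τ => ∑ b, Y a b * (lind L (H τ) (x τ)) b a) =
        ∑ b, fun τ => Y a b * (lind L (H τ) (x τ)) b a := by
      funext τ; rw [Finset.sum_apply]
    rw [this]
    exact IntervalIntegrable.sum _ fun b _ => h1 a b
  have h3 : IntervalIntegrable (fun τ => ∑ a, ∑ b, Y a b * (lind L (H τ) (x τ)) b a) volume p q := by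
    have : (fun τ => ∑ a, ∑ b, Y a b * (lind L (H τ) (x τ)) b a) =
        ∑ a, fun τ => ∑ b, Y a b * (lind L (H τ) (x τ)) b a := by
      funext τ; rw [Finset.sum_apply]
    rw [this]
    exact IntervalIntegrable.sum _ fun a _ => h2 a
  have h4 : (fun τ => pr Y (lind L (H τ) (x τ))) =
      fun τ => Complex.reCLM (∑ a, ∑ b, Y a b * (lind L (H τ) (x τ)) b a) := by
    funext τ
    rw [pr_sum]; rfl
  rw [h4]
  refine ⟨⟨Complex.reCLM.integrable_comp h3.1, Complex.reCLM.integrable_comp h3.2⟩, ?_⟩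
  rw [ContinuousLinearMap.intervalIntegral_comp_comm _ h3]
  rw [Complex.reCLM_apply]
  congr 1
  rw [intervalIntegral.integral_finsetSum fun a _ => h2 a]
  refine Finset.sum_congr rfl fun a _ => ?_
  rw [intervalIntegral.integral_finsetSum fun b _ => h1 a b]
  refine Finset.sum_congr rfl fun b _ => ?_
  rw [intervalIntegral.integral_const_mul]

theorem pr_traj {s : ℝ} (hs : 0 ≤ s) {x : ℝ → Mat d} (hx : Traj L H s x) (Y : Mat d) {r t : ℝ}
    (hr : s ≤ r) (ht : s ≤ t) :
    pr Y (x t) - pr Y (x r) = ∫ τ in r..t, pr Y (lind L (H τ) (x τ)) := by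
  rw [(pr_int hH hx.cont Y (hs.trans hr) (hs.trans ht)).2, ← pr_sub, pr_sum]
  congr 1
  refine Finset.sum_congr rfl fun a _ => Finset.sum_congr rfl fun b _ => ?_
  rw [Matrix.sub_apply, traj_sub hH hs hx hr ht]

/-- The derivative of `pr Y (x t)` at `r` when the Hamiltonian part vanishes at `r`. -/
theorem hasDeriv_pr {s : ℝ} (hs : 0 ≤ s) {x : ℝ → Mat d} (hx : Traj L H s x) (Y : Mat d) {r : ℝ}
    (hr : s ≤ r) (hY : ∀ A : Mat d, A.IsHermitian → pr Y ((-Complex.I) • (A * x r - x r * A)) = 0) :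
    HasDerivWithinAt (fun t => pr Y (x t)) (pr Y (diss L (x r))) (Set.Ici s) r := by
  obtain ⟨B, hB⟩ := hH.bdd (r + 1)
  have hB0 : 0 ≤ max B 0 := le_max_right _ _
  -- a continuous majorant
  let Φ : Mat d → ℝ := fun Z => max B 0 * (∑ b, ∑ c, (‖(Z * Y) c b‖ + ‖(Y * Z) c b‖)) +
    |pr Y (diss L Z)|
  have hΦc : Continuous Φ := by
    have h1 : ∀ b c, Continuous (fun Z : Mat d => (Z * Y) c b) := fun b c =>
      Continuous.matrix_elem (by fun_prop) c b
    have h2 : ∀ b c, Continuous (fun Z : Mat d => (Y * Z) c b) := fun b c =>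
      Continuous.matrix_elem (by fun_prop) c b
    have h3 : Continuous (fun Z : Mat d => |pr Y (diss L Z)|) :=
      ((pr_continuous Y).comp (diss_continuous L)).abs
    refine Continuous.add (continuous_const.mul ?_) h3
    exact continuous_finsetSum _ fun b _ => continuous_finsetSum _ fun c _ =>
      ((h1 b c).norm).add ((h2 b c).norm)
  have hΦ0 : Φ 0 = 0 := by
    have h1 : diss L 0 = 0 := by
      have := diss_smul L 0 (0 : Mat d)
      simpa using this
    simp [Φ, h1, pr]
  have hΦb : ∀ τ, 0 ≤ τ → τ ≤ r + 1 → ∀ Z, |pr Y (lind L (H τ) Z)| ≤ Φ Z := by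
    intro τ h0 h1 Z
    unfold lind
    rw [pr_add]
    refine (abs_add_le _ _).trans (add_le_add ?_ le_rfl)
    unfold pr
    refine (Complex.abs_re_le_norm _).trans ?_
    have h2 : Matrix.trace (Y * ((-Complex.I) • (H τ * Z - Z * H τ))) =
        (-Complex.I) * (∑ b, ∑ c, H τ b c * ((Z * Y) c b - (Y * Z) c b)) := by
      rw [mul_smul_comm, Matrix.trace_smul, smul_eq_mul]
      congr 1
      rw [mul_sub, Matrix.trace_sub, Matrix.trace_mul_comm Y (H τ * Z),
        Matrix.trace_mul_comm Y (Z * H τ), Matrix.mul_assoc (H τ), Matrix.mul_assoc Z,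
        Matrix.trace_mul_comm Z, Matrix.mul_assoc (H τ), ← Matrix.trace_sub, ← mul_sub]
      unfold Matrix.trace
      refine Finset.sum_congr rfl fun b _ => ?_
      rw [Matrix.diag_apply, Matrix.mul_apply]
      refine Finset.sum_congr rfl fun c _ => ?_
      rw [Matrix.sub_apply]
    rw [h2, norm_mul, norm_neg, Complex.norm_I, one_mul, Finset.mul_sum]
    refine (norm_sum_le _ _).trans (Finset.sum_le_sum fun b _ => ?_)
    rw [Finset.mul_sum]
    refine (norm_sum_le _ _).trans (Finset.sum_le_sum fun c _ => ?_)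
    rw [norm_mul]
    exact mul_le_mul ((hB τ h0 h1 b c).trans (le_max_left _ _)) (norm_sub_le _ _) (norm_nonneg _) hB0
  rw [hasDerivWithinAt_iff_isLittleO, Asymptotics.isLittleO_iff]
  intro ε hε
  have hc : Continuous (fun τ => Φ (x τ - x r)) := hΦc.comp (hx.cont.sub continuous_const)
  have h1 : ∀ᶠ τ in 𝓝 r, Φ (x τ - x r) < ε := by
    refine hc.continuousAt.eventually (gt_mem_nhds ?_)
    show Φ (x r - x r) < ε
    rw [sub_self, hΦ0]; exact hε
  obtain ⟨δ, hδ, hball⟩ := Metric.eventually_nhds_iff.1 h1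
  have h2 : ∀ᶠ t in 𝓝[Set.Ici s] r, dist t r < min δ 1 :=
    nhdsWithin_le_nhds (Metric.ball_mem_nhds r (lt_min hδ one_pos))
  filter_upwards [h2, self_mem_nhdsWithin] with t ht hts
  have hts' : s ≤ t := hts
  have h3 : pr Y (x t) - pr Y (x r) - (t - r) • pr Y (diss L (x r)) =
      ∫ τ in r..t, (pr Y (lind L (H τ) (x τ)) - pr Y (diss L (x r))) := by
    rw [intervalIntegral.integral_sub (pr_int hH hx.cont Y (hs.trans hr) (hs.trans hts')).1
      intervalIntegrable_const, intervalIntegral.integral_const, ← pr_traj hH hs hx Y hr hts']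
  rw [h3]
  have h4 : ∀ τ ∈ Set.uIoc r t, ‖pr Y (lind L (H τ) (x τ)) - pr Y (diss L (x r))‖ ≤ ε := by
    intro τ hτ
    have hdist : |t - r| < min δ 1 := by rwa [Real.dist_eq] at ht
    have hτr : |τ - r| ≤ |t - r| := by
      rcases Set.mem_uIoc.1 hτ with h | h
      · rw [abs_of_pos (by linarith [h.1]), abs_of_pos (by linarith [h.1, h.2])]
        linarith [h.2]
      · rw [abs_sub_comm τ r, abs_sub_comm t r, abs_of_nonneg (by linarith [h.2]),
          abs_of_pos (by linarith [h.1, h.2])]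
        linarith [h.1]
    have hτ0 : 0 ≤ τ := by
      rcases Set.mem_uIoc.1 hτ with h | h
      · linarith [h.1]
      · linarith [h.1]
    have hτ1 : τ ≤ r + 1 := by
      have h5 := lt_of_le_of_lt hτr hdist
      have h6 := lt_of_lt_of_le h5 (min_le_right δ 1)
      linarith [(abs_lt.1 h6).2]
    have h5 : pr Y (lind L (H τ) (x τ)) - pr Y (diss L (x r)) =
        pr Y (lind L (H τ) (x τ - x r)) := by
      rw [lind_sub, pr_sub]
      congr 1
      unfold lind
      rw [pr_add, hY _ (hH.herm τ hτ0), zero_add]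
    rw [h5, Real.norm_eq_abs]
    refine (hΦb τ hτ0 hτ1 _).trans (le_of_lt (hball ?_))
    rw [Real.dist_eq]
    exact (lt_of_le_of_lt hτr hdist).trans_le (min_le_left _ _)
  exact intervalIntegral.norm_integral_le_of_norm_le_const h4

/-- local Lipschitz continuity -/
theorem traj_lip {s : ℝ} (hs : 0 ≤ s) {x : ℝ → Mat d} (hx : Traj L H s x) {r : ℝ} (hr : s ≤ r) :
    ∃ K : ℝ, 0 ≤ K ∧ ∀ᶠ t in 𝓝[Set.Ici s] r, ∀ a b, ‖x t a b - x r a b‖ ≤ K * |t - r| := by
  obtain ⟨B, hB⟩ := hH.bdd (r + 1)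
  have hB0 : 0 ≤ max B 0 := le_max_right _ _
  let Ψ : ℝ → ℝ := fun τ => ∑ a, ∑ b, (max B 0 * (∑ c, (‖x τ c b‖ + ‖x τ a c‖)) + ‖(diss L (x τ)) a b‖)
  have hxe : ∀ a b, Continuous (fun τ => x τ a b) := fun a b => hx.cont.matrix_elem a b
  have hΨc : Continuous Ψ := by
    refine continuous_finsetSum _ fun a _ => continuous_finsetSum _ fun b _ => ?_
    refine Continuous.add (continuous_const.mul ?_)
      (((diss_continuous L).comp hx.cont).matrix_elem a b).norm
    exact continuous_finsetSum _ fun c _ => ((hxe c b).norm).add ((hxe a c).norm)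
  have hΨb : ∀ τ, 0 ≤ τ → τ ≤ r + 1 → ∀ a b, ‖(lind L (H τ) (x τ)) a b‖ ≤ Ψ τ := by
    intro τ h0 h1 a b
    have hterm : ∀ a b, 0 ≤ max B 0 * (∑ c, (‖x τ c b‖ + ‖x τ a c‖)) + ‖(diss L (x τ)) a b‖ := by
      intro a b
      exact add_nonneg (mul_nonneg hB0 (Finset.sum_nonneg fun c _ => by positivity)) (norm_nonneg _)
    have h2 : ‖(lind L (H τ) (x τ)) a b‖ ≤
        max B 0 * (∑ c, (‖x τ c b‖ + ‖x τ a c‖)) + ‖(diss L (x τ)) a b‖ := by
      unfold lind
      rw [Matrix.add_apply]
      refine (norm_add_le _ _).trans (add_le_add ?_ le_rfl)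
      rw [Matrix.smul_apply, Matrix.sub_apply, Matrix.mul_apply, Matrix.mul_apply, smul_eq_mul,
        norm_mul, norm_neg, Complex.norm_I, one_mul, ← Finset.sum_sub_distrib, Finset.mul_sum]
      refine (norm_sum_le _ _).trans (Finset.sum_le_sum fun c _ => ?_)
      refine (norm_sub_le _ _).trans ?_
      rw [norm_mul, norm_mul, mul_add]
      refine add_le_add ?_ ?_
      · exact mul_le_mul_of_nonneg_right ((hB τ h0 h1 a c).trans (le_max_left _ _)) (norm_nonneg _)
      · rw [mul_comm]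
        exact mul_le_mul_of_nonneg_right ((hB τ h0 h1 c b).trans (le_max_left _ _)) (norm_nonneg _)
    refine h2.trans ?_
    refine (Finset.single_le_sum (f := fun b => max B 0 * (∑ c, (‖x τ c b‖ + ‖x τ a c‖)) +
      ‖(diss L (x τ)) a b‖) (fun b _ => hterm a b) (Finset.mem_univ b)).trans ?_
    exact Finset.single_le_sum (f := fun a => ∑ b, (max B 0 * (∑ c, (‖x τ c b‖ + ‖x τ a c‖)) +
      ‖(diss L (x τ)) a b‖)) (fun a _ => Finset.sum_nonneg fun b _ => hterm a b) (Finset.mem_univ a)
  have hΨ0 : 0 ≤ Ψ r := by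
    refine Finset.sum_nonneg fun a _ => Finset.sum_nonneg fun b _ => ?_
    exact add_nonneg (mul_nonneg hB0 (Finset.sum_nonneg fun c _ => by positivity)) (norm_nonneg _)
  refine ⟨Ψ r + 1, by linarith, ?_⟩
  have h1 : ∀ᶠ τ in 𝓝 r, Ψ τ < Ψ r + 1 := hΨc.continuousAt.eventually (gt_mem_nhds (by linarith))
  obtain ⟨δ, hδ, hball⟩ := Metric.eventually_nhds_iff.1 h1
  have h2 : ∀ᶠ t in 𝓝[Set.Ici s] r, dist t r < min δ 1 :=
    nhdsWithin_le_nhds (Metric.ball_mem_nhds r (lt_min hδ one_pos))
  filter_upwards [h2, self_mem_nhdsWithin] with t ht hts a b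
  have hts' : s ≤ t := hts
  rw [traj_sub hH hs hx hr hts']
  refine intervalIntegral.norm_integral_le_of_norm_le_const fun τ hτ => ?_
  have hdist : |t - r| < min δ 1 := by rwa [Real.dist_eq] at ht
  have hτr : |τ - r| ≤ |t - r| := by
    rcases Set.mem_uIoc.1 hτ with h | h
    · rw [abs_of_pos (by linarith [h.1]), abs_of_pos (by linarith [h.1, h.2])]
      linarith [h.2]
    · rw [abs_sub_comm τ r, abs_sub_comm t r, abs_of_nonneg (by linarith [h.2]),
        abs_of_pos (by linarith [h.1, h.2])]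
      linarith [h.1]
  have hτ0 : 0 ≤ τ := by
    rcases Set.mem_uIoc.1 hτ with h | h
    · linarith [h.1]
    · linarith [h.1]
  have hτ1 : τ ≤ r + 1 := by
    have h5 := lt_of_le_of_lt hτr hdist
    have h6 := lt_of_lt_of_le h5 (min_le_right δ 1)
    linarith [(abs_lt.1 h6).2]
  refine (hΨb τ hτ0 hτ1 a b).trans (le_of_lt (hball ?_))
  rw [Real.dist_eq]
  exact (lt_of_le_of_lt hτr hdist).trans_le (min_le_left _ _)

end integrals

end Pool.Agent.Q110.Lind
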