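import Mathlib
import Pool.Agent.Q110.Lind.Dyn

/-!
# The determinant along trajectories
-/

set_option autoImplicit false

open Matrix MeasureTheory Filter Topology
open scoped ComplexOrder

namespace Pool.Agent.Q110.Lind

variable {d m : ℕ}

/-- determinant on the normed space of arrays -/
noncomputable def dF (z : Fin d → Fin d → ℂ) : ℂ := Matrix.det (Matrix.of z)

theorem dF_diff : Differentiable ℝ (dF (d := d)) := by
  unfold dF
  simp only [Matrix.det_apply, Matrix.of_apply]
  refine Differentiable.fun_sum fun σ _ => ?_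
  refine Differentiable.const_smul ?_ _
  intro z
  have h := HasFDerivAt.finsetProd (𝕜 := ℝ) (𝔸' := ℂ) (u := Finset.univ) (x := z)
    (g := fun i (z : Fin d → Fin d → ℂ) => z (σ i) i)
    (g' := fun i => fderiv ℝ (fun z : Fin d → Fin d → ℂ => z (σ i) i) z)
    (fun i _ => by
      have : DifferentiableAt ℝ (fun z : Fin d → Fin d → ℂ => z (σ i) i) z := by fun_prop
      exact this.hasFDerivAt)
  exact h.differentiableAt

theorem det_line (M : Mat d) :
    HasDerivAt (fun h : ℂ => Matrix.det (1 + h • M)) (Matrix.trace M) 0 := by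
  have h1 : (fun h : ℂ => Matrix.det (1 + h • M)) = fun h => 1 + Matrix.trace M * h +
      (Matrix.det (1 + (Polynomial.X : Polynomial ℂ) • M.map Polynomial.C)).divX.divX.eval h *
        h ^ 2 := by
    funext h; rw [Matrix.det_one_add_smul]
  rw [h1]
  have h2 := ((Polynomial.hasDerivAt
    (Matrix.det (1 + (Polynomial.X : Polynomial ℂ) • M.map Polynomial.C)).divX.divX (0 : ℂ)).mul
      (hasDerivAt_pow 2 (0 : ℂ)))
  have h3 := ((hasDerivAt_id (0 : ℂ)).const_mul (Matrix.trace M)).const_add 1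
  have h4 := h3.add h2
  have h5 : Matrix.trace M * 1 + (Polynomial.eval 0 (Polynomial.derivative
      (Matrix.det (1 + (Polynomial.X : Polynomial ℂ) • M.map Polynomial.C)).divX.divX) * 0 ^ 2 +
      Polynomial.eval 0 (Matrix.det (1 + (Polynomial.X : Polynomial ℂ) •
        M.map Polynomial.C)).divX.divX * (((2 : ℕ) : ℂ) * 0 ^ (2 - 1))) = Matrix.trace M := by
    simp
  rw [h5] at h4
  exact h4

theorem dF_fderiv (A : Mat d) (hA : IsUnit A.det) (Δ : Fin d → Fin d → ℂ) :
    fderiv ℝ dF (Matrix.of.symm A) Δ = A.det * Matrix.trace (A⁻¹ * Matrix.of Δ) := by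
  have h1 : HasDerivAt (fun h : ℝ => dF (Matrix.of.symm A + h • Δ))
      (fderiv ℝ dF (Matrix.of.symm A) Δ) 0 := by
    have h3 : HasDerivAt (fun h : ℝ => Matrix.of.symm A + h • Δ) Δ 0 := by
      have := ((hasDerivAt_id (0 : ℝ)).smul_const Δ).const_add (Matrix.of.symm A)
      simpa using this
    have h2 := (dF_diff (Matrix.of.symm A)).hasFDerivAt
    have h4 : HasFDerivAt dF (fderiv ℝ dF (Matrix.of.symm A)) (Matrix.of.symm A + (0 : ℝ) • Δ) := by
      rw [zero_smul, add_zero]; exact h2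
    exact h4.comp_hasDerivAt (0 : ℝ) h3
  have h5 : HasDerivAt (fun h : ℝ => dF (Matrix.of.symm A + h • Δ))
      (A.det * Matrix.trace (A⁻¹ * Matrix.of Δ)) 0 := by
    have h6 : (fun h : ℝ => dF (Matrix.of.symm A + h • Δ)) =
        fun h : ℝ => A.det * Matrix.det (1 + (h : ℂ) • (A⁻¹ * Matrix.of Δ)) := by
      funext h
      unfold dF
      rw [← Matrix.det_mul, mul_add, mul_one, Matrix.mul_smul, ← Matrix.mul_assoc,
        Matrix.mul_nonsing_inv A hA, one_mul]
      congr 1
    rw [h6]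
    refine HasDerivAt.const_mul _ ?_
    exact HasDerivAt.comp_ofReal (z := (0 : ℝ)) (e := fun h : ℂ => Matrix.det (1 + h • (A⁻¹ * Matrix.of Δ)))
      (by simpa using det_line (A⁻¹ * Matrix.of Δ))
  exact h1.unique h5

/-- total decay rate -/
noncomputable def C0 (L : Fin m → Mat d) : ℝ := ∑ j, (Matrix.trace ((L j)ᴴ * L j)).re

theorem C0_nonneg (L : Fin m → Mat d) : 0 ≤ C0 L := by
  refine Finset.sum_nonneg fun j _ => ?_
  have h := (Matrix.posSemidef_conjTranspose_mul_self (L j)).trace_nonneg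
  exact (Complex.le_def.1 h).1

theorem pr_inv_diss (L : Fin m → Mat d) (A : Mat d) (hA : IsUnit A.det) :
    pr A⁻¹ (diss L A) = G L A - C0 L := by
  unfold pr diss G C0
  rw [Finset.mul_sum, Matrix.trace_sum, Complex.re_sum, ← Finset.sum_sub_distrib]
  refine Finset.sum_congr rfl fun j _ => ?_
  rw [mul_sub, Matrix.trace_sub, Complex.sub_re, mul_smul_comm, Matrix.trace_smul, mul_add,
    Matrix.trace_add]
  have h1 : Matrix.trace (A⁻¹ * ((L j)ᴴ * L j * A)) = Matrix.trace ((L j)ᴴ * L j) := by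
    rw [Matrix.trace_mul_comm, Matrix.mul_assoc, Matrix.mul_nonsing_inv A hA, mul_one]
  have h2 : Matrix.trace (A⁻¹ * (A * ((L j)ᴴ * L j))) = Matrix.trace ((L j)ᴴ * L j) := by
    rw [← Matrix.mul_assoc, Matrix.nonsing_inv_mul A hA, one_mul]
  rw [h1, h2, smul_eq_mul]
  congr 1
  rw [← two_mul, ← mul_assoc]
  norm_num

theorem pr_inv_ham (A B : Mat d) (hA : IsUnit A.det) :
    pr A⁻¹ ((-Complex.I) • (B * A - A * B)) = 0 := by
  unfold pr
  rw [mul_smul_comm, Matrix.trace_smul, mul_sub, Matrix.trace_sub]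
  have h1 : Matrix.trace (A⁻¹ * (B * A)) = Matrix.trace B := by
    rw [Matrix.trace_mul_comm, Matrix.mul_assoc, Matrix.mul_nonsing_inv A hA, mul_one]
  have h2 : Matrix.trace (A⁻¹ * (A * B)) = Matrix.trace B := by
    rw [← Matrix.mul_assoc, Matrix.nonsing_inv_mul A hA, one_mul]
  rw [h1, h2, sub_self, smul_zero, Complex.zero_re]

theorem det_im (A : Mat d) (hA : A.IsHermitian) : A.det.im = 0 := by
  rw [hA.det_eq_prod_eigenvalues]
  have : (∏ i, ((hA.eigenvalues i : ℝ) : ℂ)) = ((∏ i, hA.eigenvalues i : ℝ) : ℂ) := by push_cast; rfl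
  exact (congrArg Complex.im this).trans (Complex.ofReal_im _)

theorem posDef_unit (A : Mat d) (hA : A.PosDef) : IsUnit A.det :=
  (Matrix.isUnit_iff_isUnit_det A).1 hA.isUnit

theorem hasDeriv_det {L : Fin m → Mat d} {H : ℝ → Mat d} (hH : Drive H) {s : ℝ} (hs : 0 ≤ s)
    {x : ℝ → Mat d} (hx : Traj L H s x) {r : ℝ} (hr : s ≤ r) (hpos : (x r).PosDef) :
    HasDerivWithinAt (fun t => (x t).det.re) ((x r).det.re * (G L (x r) - C0 L)) (Set.Ici s) r := by
  have hu : IsUnit (x r).det := posDef_unit _ hpos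
  have him : (x r).det.im = 0 := det_im _ hpos.isHermitian
  have h1 := hasDeriv_pr hH hs hx (x r)⁻¹ hr (fun A _ => pr_inv_ham (x r) A hu)
  rw [pr_inv_diss L _ hu] at h1
  have h2 := h1.const_mul (x r).det.re
  -- the remainder
  have h3 : HasDerivWithinAt (fun t => (x t).det.re - (x r).det.re * pr (x r)⁻¹ (x t)) 0
      (Set.Ici s) r := by
    have hF := (dF_diff (Matrix.of.symm (x r))).hasFDerivAt.isLittleO
    have hxc : Tendsto (fun t => Matrix.of.symm (x t)) (𝓝[Set.Ici s] r) (𝓝 (Matrix.of.symm (x r))) :=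
      (hx.cont.tendsto r).mono_left nhdsWithin_le_nhds
    have h4 := hF.comp_tendsto hxc
    obtain ⟨K, hK, hlip⟩ := traj_lip hH hs hx hr
    have h5 : (fun t => Matrix.of.symm (x t) - Matrix.of.symm (x r)) =O[𝓝[Set.Ici s] r]
        (fun t => t - r) := by
      refine Asymptotics.IsBigO.of_bound K ?_
      filter_upwards [hlip] with t ht
      rw [pi_norm_le_iff_of_nonneg (by positivity)]
      intro a
      rw [pi_norm_le_iff_of_nonneg (by positivity)]
      intro b
      exact ht a b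
    have h6 := h4.trans_isBigO h5
    rw [hasDerivWithinAt_iff_isLittleO]
    refine (Asymptotics.IsBigO.of_bound 1 ?_).trans_isLittleO h6
    refine Filter.Eventually.of_forall fun t => ?_
    rw [one_mul]
    simp only [Function.comp_apply]
    rw [show Matrix.of.symm (x t) - Matrix.of.symm (x r) = Matrix.of.symm (x t - x r) from rfl,
      dF_fderiv (x r) hu]
    refine le_trans (le_of_eq ?_) (Complex.abs_re_le_norm _)
    rw [Real.norm_eq_abs]
    congr 1
    unfold dF
    rw [Complex.sub_re, Complex.sub_re, Complex.mul_re, him, zero_mul, sub_zero,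
      Equiv.apply_symm_apply, Equiv.apply_symm_apply, Equiv.apply_symm_apply, smul_zero, sub_zero]
    have h7 : (Matrix.trace ((x r)⁻¹ * (x t - x r))).re = pr (x r)⁻¹ (x t) - pr (x r)⁻¹ (x r) :=
      pr_sub _ _ _
    rw [h7]
    ring
  have h8 := h3.add h2
  rw [zero_add] at h8
  refine h8.congr (fun t _ => ?_) ?_
  · simp
  · simp

end Pool.Agent.Q110.Lind
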