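import Mathlib
import Pool.Agent.Q110.Lind.Det

/-!
# Positivity and the determinant bound along trajectories
-/

set_option autoImplicit false

open Matrix MeasureTheory Filter Topology
open scoped ComplexOrder

namespace Pool.Agent.Q110.Lind

variable {d m : ℕ}

/-- quadratic form of a matrix -/
noncomputable def qf (A : Mat d) (v : Fin d → ℂ) : ℝ := (star v ⬝ᵥ (A *ᵥ v)).re

theorem qf_add (A B : Mat d) (v : Fin d → ℂ) : qf (A + B) v = qf A v + qf B v := by
  unfold qf; rw [Matrix.add_mulVec, dotProduct_add, Complex.add_re]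

theorem qf_sub (A B : Mat d) (v : Fin d → ℂ) : qf (A - B) v = qf A v - qf B v := by
  unfold qf; rw [Matrix.sub_mulVec, dotProduct_sub, Complex.sub_re]

theorem qf_smul (c : ℝ) (A : Mat d) (v : Fin d → ℂ) : qf ((c : ℂ) • A) v = c * qf A v := by
  unfold qf; rw [Matrix.smul_mulVec, dotProduct_smul, smul_eq_mul, Complex.re_ofReal_mul]

theorem qf_scale (A : Mat d) (c : ℝ) (v : Fin d → ℂ) : qf A ((c : ℂ) • v) = c ^ 2 * qf A v := by
  unfold qf
  rw [Matrix.mulVec_smul, dotProduct_smul, star_smul, smul_dotProduct, Complex.star_def,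
    Complex.conj_ofReal, smul_smul, smul_eq_mul, ← Complex.ofReal_mul, Complex.re_ofReal_mul]
  ring

theorem qf_im (A : Mat d) (hA : A.IsHermitian) (v : Fin d → ℂ) : (star v ⬝ᵥ (A *ᵥ v)).im = 0 :=
  hA.im_star_dotProduct_mulVec_self v

theorem posDef_of_qf (A : Mat d) (hA : A.IsHermitian) (h : ∀ v, v ≠ 0 → 0 < qf A v) : A.PosDef := by
  refine Matrix.PosDef.of_dotProduct_mulVec_pos hA fun v hv => ?_
  rw [Complex.lt_def]
  exact ⟨h v hv, (qf_im A hA v).symm⟩

theorem posSemidef_of_qf (A : Mat d) (hA : A.IsHermitian) (h : ∀ v, 0 ≤ qf A v) :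
    A.PosSemidef := by
  refine Matrix.PosSemidef.of_dotProduct_mulVec_nonneg hA fun v => ?_
  rw [Complex.le_def]
  exact ⟨h v, (qf_im A hA v).symm⟩

theorem qf_pos (A : Mat d) (hA : A.PosDef) (v : Fin d → ℂ) (hv : v ≠ 0) : 0 < qf A v :=
  hA.re_dotProduct_pos hv

theorem qf_nonneg (A : Mat d) (hA : A.PosSemidef) (v : Fin d → ℂ) : 0 ≤ qf A v :=
  hA.re_dotProduct_nonneg v

theorem posDef_of_sphere (A : Mat d) (hA : A.IsHermitian)
    (h : ∀ v ∈ Metric.sphere (0 : Fin d → ℂ) 1, 0 < qf A v) : A.PosDef := by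
  refine posDef_of_qf A hA fun v hv => ?_
  have hn : 0 < ‖v‖ := norm_pos_iff.2 hv
  have h1 := h (((‖v‖⁻¹ : ℝ) : ℂ) • v) (by
    rw [mem_sphere_zero_iff_norm, norm_smul, Complex.norm_real, Real.norm_eq_abs, abs_inv,
      abs_of_pos hn, inv_mul_cancel₀ hn.ne'])
  rw [qf_scale] at h1
  exact (mul_pos_iff_of_pos_left (by positivity)).1 h1

theorem qf_continuous : Continuous (fun p : Mat d × (Fin d → ℂ) => qf p.1 p.2) := by
  unfold qf
  refine Complex.continuous_re.comp ?_
  refine Continuous.dotProduct ?_ ?_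
  · exact (continuous_snd).star
  · exact Continuous.matrix_mulVec continuous_fst continuous_snd

/-- monotonicity from one-sided differentiability -/
theorem mono_of {f f' : ℝ → ℝ} {s : ℝ} {D : Set ℝ} (hD : Convex ℝ D) (hDs : D ⊆ Set.Ici s)
    (hf : ∀ t ∈ D, HasDerivWithinAt f (f' t) (Set.Ici s) t) (h0 : ∀ t ∈ D, 0 ≤ f' t) :
    MonotoneOn f D := by
  have hint : ∀ t ∈ interior D, HasDerivAt f (f' t) t := by
    intro t ht
    refine (hf t (interior_subset ht)).hasDerivAt ?_
    exact mem_of_superset (isOpen_interior.mem_nhds ht) (interior_subset.trans hDs)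
  refine monotoneOn_of_deriv_nonneg hD (fun t ht => ((hf t ht).continuousWithinAt).mono hDs) ?_ ?_
  · intro t ht
    exact (hint t ht).differentiableAt.differentiableWithinAt
  · intro t ht
    rw [(hint t ht).deriv]
    exact h0 t (interior_subset ht)

theorem Traj.restart {L : Fin m → Mat d} {H : ℝ → Mat d} (hH : Drive H) {s r : ℝ} (hs : 0 ≤ s)
    {x : ℝ → Mat d} (hx : Traj L H s x) (hr : s ≤ r) : Traj L H r x :=
  ⟨hx.cont, fun t ht a b => by
    rw [← traj_sub hH hs hx hr (hr.trans ht) a b]; ring⟩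

theorem Traj.sub {L : Fin m → Mat d} {H : ℝ → Mat d} (hH : Drive H) {s : ℝ} (hs : 0 ≤ s)
    {x y : ℝ → Mat d} (hx : Traj L H s x) (hy : Traj L H s y) :
    Traj L H s (fun t => x t - y t) :=
  ⟨hx.cont.sub hy.cont, fun t ht a b => by
    have h1 : (fun τ => (lind L (H τ) (x τ - y τ)) a b) =
        fun τ => (lind L (H τ) (x τ)) a b - (lind L (H τ) (y τ)) a b := by
      funext τ; rw [lind_sub, Matrix.sub_apply]
    rw [h1, intervalIntegral.integral_sub (lind_int hH hx.cont a b hs (hs.trans ht))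
      (lind_int hH hy.cont a b hs (hs.trans ht)), Matrix.sub_apply, Matrix.sub_apply,
      hx.eq t ht a b, hy.eq t ht a b]
    ring⟩

theorem Traj.smul {L : Fin m → Mat d} {H : ℝ → Mat d} {s : ℝ}
    {x : ℝ → Mat d} (c : ℂ) (hx : Traj L H s x) :
    Traj L H s (fun t => c • x t) :=
  ⟨hx.cont.const_smul c, fun t ht a b => by
    have h1 : (fun τ => (lind L (H τ) (c • x τ)) a b) =
        fun τ => c * (lind L (H τ) (x τ)) a b := by
      funext τ; rw [lind_smul, Matrix.smul_apply, smul_eq_mul]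
    rw [h1, intervalIntegral.integral_const_mul, Matrix.smul_apply, Matrix.smul_apply,
      hx.eq t ht a b, smul_eq_mul, smul_eq_mul]
    ring⟩

theorem diss_star (L : Fin m → Mat d) (X : Mat d) : diss L Xᴴ = (diss L X)ᴴ := by
  unfold diss
  rw [Matrix.conjTranspose_sum]
  refine Finset.sum_congr rfl fun j _ => ?_
  have : star (1 / 2 : ℂ) = 1 / 2 := by simp
  simp only [Matrix.conjTranspose_sub, Matrix.conjTranspose_smul, Matrix.conjTranspose_add,
    Matrix.conjTranspose_mul, Matrix.conjTranspose_conjTranspose, this, Matrix.mul_assoc]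
  rw [add_comm (Xᴴ * _)]

theorem lind_star (L : Fin m → Mat d) (H X : Mat d) (hH : H.IsHermitian) :
    lind L H Xᴴ = (lind L H X)ᴴ := by
  unfold lind
  rw [diss_star, Matrix.conjTranspose_add, Matrix.conjTranspose_smul, Matrix.conjTranspose_sub,
    Matrix.conjTranspose_mul, Matrix.conjTranspose_mul, hH.eq]
  congr 1
  rw [star_neg, Complex.star_def, Complex.conj_I, neg_neg, ← neg_sub (Xᴴ * H) (H * Xᴴ), smul_neg,
    neg_smul, neg_neg]

theorem Traj.star {L : Fin m → Mat d} {H : ℝ → Mat d} (hH : Drive H) {s : ℝ} (hs : 0 ≤ s)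
    {x : ℝ → Mat d} (hx : Traj L H s x) :
    Traj L H s (fun t => (x t)ᴴ) :=
  ⟨hx.cont.matrix_conjTranspose, fun t ht a b => by
    have h1 : ∫ τ in s..t, (lind L (H τ) (x τ)ᴴ) a b =
        ∫ τ in s..t, (Complex.conjCLE.toContinuousLinearMap) ((lind L (H τ) (x τ)) b a) := by
      refine intervalIntegral.integral_congr fun τ hτ => ?_
      rw [Set.uIcc_of_le ht] at hτ
      show (lind L (H τ) (x τ)ᴴ) a b = (Complex.conjCLE.toContinuousLinearMap) ((lind L (H τ) (x τ)) b a)
      rw [lind_star L (H τ) (x τ) (hH.herm τ (hs.trans hτ.1)), Matrix.conjTranspose_apply]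
      rfl
    rw [h1, ContinuousLinearMap.intervalIntegral_comp_comm _
      (lind_int hH hx.cont b a hs (hs.trans ht)), Matrix.conjTranspose_apply,
      Matrix.conjTranspose_apply, hx.eq t ht b a, star_add]
    rfl⟩

end Pool.Agent.Q110.Lind
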