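import Mathlib
import Pool.Agent.Q110.Lind.Pos

/-!
# Uniqueness of trajectories
-/

set_option autoImplicit false

open Matrix MeasureTheory Filter Topology
open scoped ComplexOrder

namespace Pool.Agent.Q110.Lind

variable {d m : ℕ}

/-- squared Frobenius norm -/
noncomputable def fro (X : Mat d) : ℝ := ∑ a, ∑ b, ‖X a b‖ ^ 2

theorem fro_nonneg (X : Mat d) : 0 ≤ fro X :=
  Finset.sum_nonneg fun _ _ => Finset.sum_nonneg fun _ _ => sq_nonneg _

theorem fro_entry (X : Mat d) (a b : Fin d) : ‖X a b‖ ≤ Real.sqrt (fro X) := by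
  refine Real.le_sqrt_of_sq_le ?_
  exact (Finset.single_le_sum (f := fun b => ‖X a b‖ ^ 2) (fun _ _ => sq_nonneg _)
    (Finset.mem_univ b)).trans (Finset.single_le_sum (f := fun a => ∑ b, ‖X a b‖ ^ 2)
      (fun _ _ => Finset.sum_nonneg fun _ _ => sq_nonneg _) (Finset.mem_univ a))

theorem fro_eq_pr (X : Mat d) : fro X = pr Xᴴ X := by
  rw [pr_sum, Finset.sum_comm, Complex.re_sum]
  refine Finset.sum_congr rfl fun a _ => ?_
  rw [Complex.re_sum]
  refine Finset.sum_congr rfl fun b _ => ?_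
  rw [Matrix.conjTranspose_apply, Complex.star_def, mul_comm, Complex.mul_conj,
    Complex.normSq_eq_norm_sq, Complex.ofReal_re]

theorem pr_star_comm (X Y : Mat d) : pr Xᴴ Y = pr Yᴴ X := by
  unfold pr
  have h : (Xᴴ * Y) = (Yᴴ * X)ᴴ := by
    rw [Matrix.conjTranspose_mul, Matrix.conjTranspose_conjTranspose]
  rw [h, Matrix.trace_conjTranspose]
  rfl

theorem fro_expand (X Y : Mat d) : fro Y = fro X + 2 * (pr Xᴴ Y - pr Xᴴ X) + fro (Y - X) := by
  rw [fro_eq_pr, fro_eq_pr, fro_eq_pr, Matrix.conjTranspose_sub]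
  have h1 : pr (Yᴴ - Xᴴ) (Y - X) = pr Yᴴ Y - pr Yᴴ X - pr Xᴴ Y + pr Xᴴ X := by
    unfold pr
    rw [sub_mul, mul_sub, mul_sub, Matrix.trace_sub, Matrix.trace_sub, Matrix.trace_sub,
      Complex.sub_re, Complex.sub_re, Complex.sub_re]
    ring
  rw [h1, pr_star_comm Y X]
  ring

theorem pr_ham_zero (X A : Mat d) (hA : A.IsHermitian) :
    pr Xᴴ ((-Complex.I) • (A * X - X * A)) = 0 := by
  unfold pr
  rw [mul_smul_comm, Matrix.trace_smul, mul_sub, Matrix.trace_sub, smul_eq_mul]
  have h1 : (Matrix.trace (Xᴴ * (A * X))).im = 0 := by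
    have h : star (Matrix.trace (Xᴴ * (A * X))) = Matrix.trace (Xᴴ * (A * X)) := by
      rw [← Matrix.trace_conjTranspose, Matrix.conjTranspose_mul, Matrix.conjTranspose_mul,
        Matrix.conjTranspose_conjTranspose, hA.eq, Matrix.mul_assoc]
    exact Complex.conj_eq_iff_im.1 h
  have h2 : (Matrix.trace (Xᴴ * (X * A))).im = 0 := by
    have h : star (Matrix.trace (Xᴴ * (X * A))) = Matrix.trace (Xᴴ * (X * A)) := by
      rw [← Matrix.trace_conjTranspose, Matrix.conjTranspose_mul, Matrix.conjTranspose_mul,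
        Matrix.conjTranspose_conjTranspose, hA.eq, Matrix.mul_assoc, Matrix.trace_mul_comm,
        Matrix.mul_assoc]
    exact Complex.conj_eq_iff_im.1 h
  rw [Complex.mul_re, Complex.sub_im, h1, h2]
  simp

/-- the dissipator on arrays as a linear map -/
noncomputable def dissLin (L : Fin m → Mat d) : (Fin d → Fin d → ℂ) →ₗ[ℂ] (Fin d → Fin d → ℂ) where
  toFun z := Matrix.of.symm (diss L (Matrix.of z))
  map_add' z w := by
    rw [show Matrix.of (z + w) = Matrix.of z + Matrix.of w from rfl, diss_add]; rfl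
  map_smul' c z := by
    rw [show Matrix.of (c • z) = c • Matrix.of z from rfl, diss_smul]; rfl

theorem fro_bound (L : Fin m → Mat d) : ∃ C : ℝ, 0 ≤ C ∧ ∀ X : Mat d, |pr Xᴴ (diss L X)| ≤ C * fro X := by
  let T := (dissLin L).toContinuousLinearMap
  refine ⟨∑ _a : Fin d, ∑ _b : Fin d, ‖T‖, Finset.sum_nonneg fun _ _ => Finset.sum_nonneg fun _ _ =>
    norm_nonneg _, fun X => ?_⟩
  have hsq : Real.sqrt (fro X) * Real.sqrt (fro X) = fro X := Real.mul_self_sqrt (fro_nonneg X)
  have hz : ‖(Matrix.of.symm X : Fin d → Fin d → ℂ)‖ ≤ Real.sqrt (fro X) := by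
    rw [pi_norm_le_iff_of_nonneg (Real.sqrt_nonneg _)]
    intro a
    rw [pi_norm_le_iff_of_nonneg (Real.sqrt_nonneg _)]
    intro b
    exact fro_entry X a b
  have hT : ∀ a b, ‖(diss L X) a b‖ ≤ ‖T‖ * Real.sqrt (fro X) := by
    intro a b
    have h1 : ‖(diss L X) a b‖ ≤ ‖T (Matrix.of.symm X)‖ :=
      (norm_le_pi_norm (T (Matrix.of.symm X) a) b).trans (norm_le_pi_norm (T (Matrix.of.symm X)) a)
    exact h1.trans ((T.le_opNorm _).trans (mul_le_mul_of_nonneg_left hz (norm_nonneg _)))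
  rw [pr_sum, Finset.sum_mul]
  refine (Complex.abs_re_le_norm _).trans ((norm_sum_le _ _).trans (Finset.sum_le_sum fun a _ => ?_))
  rw [Finset.sum_mul]
  refine (norm_sum_le _ _).trans (Finset.sum_le_sum fun b _ => ?_)
  rw [norm_mul, Matrix.conjTranspose_apply, norm_star]
  calc ‖X b a‖ * ‖(diss L X) b a‖ ≤ Real.sqrt (fro X) * (‖T‖ * Real.sqrt (fro X)) :=
        mul_le_mul (fro_entry X b a) (hT b a) (norm_nonneg _) (Real.sqrt_nonneg _)
    _ = ‖T‖ * (Real.sqrt (fro X) * Real.sqrt (fro X)) := by ring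
    _ = ‖T‖ * fro X := by rw [hsq]

theorem hasDeriv_fro {L : Fin m → Mat d} {H : ℝ → Mat d} (hH : Drive H) {s : ℝ} (hs : 0 ≤ s)
    {x : ℝ → Mat d} (hx : Traj L H s x) {r : ℝ} (hr : s ≤ r) :
    HasDerivWithinAt (fun t => fro (x t)) (2 * pr (x r)ᴴ (diss L (x r))) (Set.Ici s) r := by
  have h1 := hasDeriv_pr hH hs hx (x r)ᴴ hr (fun A hA => pr_ham_zero (x r) A hA)
  have h2 := ((h1.sub_const (pr (x r)ᴴ (x r))).const_mul 2).const_add (fro (x r))
  have h3 : HasDerivWithinAt (fun t => fro (x t - x r)) 0 (Set.Ici s) r := by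
    obtain ⟨K, hK, hlip⟩ := traj_lip hH hs hx hr
    rw [hasDerivWithinAt_iff_isLittleO]
    have h4 : (fun t => fro (x t - x r) - fro (x r - x r) - (t - r) • (0 : ℝ)) =O[𝓝[Set.Ici s] r]
        (fun t => (t - r) ^ 2) := by
      refine Asymptotics.IsBigO.of_bound (∑ _a : Fin d, ∑ _b : Fin d, K ^ 2) ?_
      filter_upwards [hlip] with t ht
      have h5 : fro (x r - x r) = 0 := by simp [fro]
      rw [h5, smul_zero, sub_zero, sub_zero, Real.norm_eq_abs, abs_of_nonneg (fro_nonneg _),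
        Real.norm_eq_abs, abs_of_nonneg (sq_nonneg _), Finset.sum_mul]
      refine Finset.sum_le_sum fun a _ => ?_
      rw [Finset.sum_mul]
      refine Finset.sum_le_sum fun b _ => ?_
      rw [← mul_pow, ← sq_abs (K * (t - r)), abs_mul, abs_of_nonneg hK]
      exact pow_le_pow_left₀ (norm_nonneg _) (ht a b) 2
    refine h4.trans_isLittleO ?_
    have h6 : (fun t : ℝ => (t - r) ^ 2) =o[𝓝 r] (fun t => t - r) := by
      have h7 : (fun t : ℝ => (t - r) * (t - r)) =o[𝓝 r] (fun t => 1 * (t - r)) := by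
        refine Asymptotics.IsLittleO.mul_isBigO ?_ (Asymptotics.isBigO_refl _ _)
        rw [Asymptotics.isLittleO_one_iff]
        have : Tendsto (fun t : ℝ => t - r) (𝓝 r) (𝓝 (r - r)) :=
          (continuous_id.sub continuous_const).tendsto r
        rwa [sub_self] at this
      simpa [sq] using h7
    exact h6.mono nhdsWithin_le_nhds
  have h8 := h2.add h3
  rw [add_zero] at h8
  exact h8.congr (fun t _ => fro_expand (x r) (x t)) (fro_expand (x r) (x r))

theorem traj_zero {L : Fin m → Mat d} {H : ℝ → Mat d} (hH : Drive H) {s : ℝ} (hs : 0 ≤ s)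
    {x : ℝ → Mat d} (hx : Traj L H s x) (h0 : x s = 0) {t : ℝ} (ht : s ≤ t) : x t = 0 := by
  obtain ⟨C, hC, hb⟩ := fro_bound L
  have hmono : MonotoneOn (fun t => -(Real.exp (-(2 * C) * t) * fro (x t))) (Set.Ici s) := by
    refine mono_of (f' := fun r => -(Real.exp (-(2 * C) * r) * (-(2 * C)) * fro (x r) +
      Real.exp (-(2 * C) * r) * (2 * pr (x r)ᴴ (diss L (x r))))) (convex_Ici s) subset_rfl ?_ ?_
    · intro r hr
      have h1 := hasDeriv_fro hH hs hx hr
      have h2 : HasDerivAt (fun t : ℝ => Real.exp (-(2 * C) * t))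
          (Real.exp (-(2 * C) * r) * (-(2 * C))) r := by
        have := ((hasDerivAt_id r).const_mul (-(2 * C))).exp
        simpa using this
      exact (h2.hasDerivWithinAt.mul h1).neg
    · intro r hr
      have h1 := (abs_le.1 (hb (x r))).2
      have h2 := Real.exp_pos (-(2 * C) * r)
      have : -(Real.exp (-(2 * C) * r) * (-(2 * C)) * fro (x r) +
        Real.exp (-(2 * C) * r) * (2 * pr (x r)ᴴ (diss L (x r)))) =
        2 * Real.exp (-(2 * C) * r) * (C * fro (x r) - pr (x r)ᴴ (diss L (x r))) := by ring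
      rw [this]
      exact mul_nonneg (by positivity) (by linarith)
  have h1 := hmono (Set.mem_Ici.2 le_rfl) (Set.mem_Ici.2 ht) ht
  have h2 : fro (x s) = 0 := by rw [h0]; simp [fro]
  simp only [h2, mul_zero, neg_zero] at h1
  have h3 : fro (x t) ≤ 0 := by
    have h4 := Real.exp_pos (-(2 * C) * t)
    by_contra hcon
    push Not at hcon
    have := mul_pos h4 hcon
    linarith
  have h5 : Real.sqrt (fro (x t)) = 0 := Real.sqrt_eq_zero_of_nonpos h3
  ext a b
  have h6 := fro_entry (x t) a b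
  rw [h5] at h6
  simpa using h6

theorem traj_herm {L : Fin m → Mat d} {H : ℝ → Mat d} (hH : Drive H) {s : ℝ} (hs : 0 ≤ s)
    {x : ℝ → Mat d} (hx : Traj L H s x) (h0 : (x s).IsHermitian) {t : ℝ} (ht : s ≤ t) :
    (x t).IsHermitian := by
  have h1 := traj_zero hH hs ((hx.star hH hs).sub hH hs hx) (by
    show (x s)ᴴ - x s = 0
    rw [h0.eq, sub_self]) ht
  exact sub_eq_zero.1 h1

theorem traj_trace {L : Fin m → Mat d} {H : ℝ → Mat d} (hH : Drive H) {s : ℝ} (hs : 0 ≤ s)
    {x : ℝ → Mat d} (hx : Traj L H s x) {t : ℝ} (ht : s ≤ t) : pr 1 (x t) = pr 1 (x s) := by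
  have h1 := pr_traj hH hs hx 1 le_rfl ht
  have h2 : ∀ τ, pr 1 (lind L (H τ) (x τ)) = 0 := by
    intro τ
    unfold pr lind diss
    rw [one_mul, Matrix.trace_add, Matrix.trace_smul, Matrix.trace_sub, Matrix.trace_mul_comm (H τ),
      sub_self, smul_zero, zero_add, Matrix.trace_sum]
    refine (congrArg Complex.re (Finset.sum_eq_zero fun j _ => ?_)).trans Complex.zero_re
    rw [Matrix.trace_sub, Matrix.trace_smul, Matrix.trace_add, Matrix.mul_assoc (L j),
      Matrix.trace_mul_comm (L j), Matrix.mul_assoc (x τ), Matrix.trace_mul_comm (x τ) ((L j)ᴴ * L j),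
      smul_eq_mul]
    ring
  simp only [h2, intervalIntegral.integral_zero] at h1
  linarith

theorem traj_pos {L : Fin m → Mat d} {H : ℝ → Mat d} (hH : Drive H) {s : ℝ} (hs : 0 ≤ s)
    {x : ℝ → Mat d} (hx : Traj L H s x) (h0 : (x s).PosDef) {t : ℝ} (ht : s ≤ t) :
    (x t).PosDef := by
  have hherm : ∀ t, s ≤ t → (x t).IsHermitian := fun t ht => traj_herm hH hs hx h0.isHermitian ht
  by_contra hcon
  have hq : Continuous (fun p : ℝ × (Fin d → ℂ) => qf (x p.1) p.2) :=
    qf_continuous.comp ((hx.cont.comp continuous_fst).prodMk continuous_snd)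
  let K : Set (ℝ × (Fin d → ℂ)) := (Set.Icc s t ×ˢ Metric.sphere (0 : Fin d → ℂ) 1) ∩
    {p | qf (x p.1) p.2 ≤ 0}
  have hK : IsCompact K :=
    (isCompact_Icc.prod (isCompact_sphere _ _)).inter_right (isClosed_le hq continuous_const)
  have hKne : K.Nonempty := by
    have h1 : ¬ ∀ v ∈ Metric.sphere (0 : Fin d → ℂ) 1, 0 < qf (x t) v :=
      fun h => hcon (posDef_of_sphere _ (hherm t ht) h)
    push Not at h1
    obtain ⟨v, hv, hv'⟩ := h1
    exact ⟨(t, v), ⟨⟨⟨ht, le_rfl⟩, hv⟩, hv'⟩⟩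
  obtain ⟨⟨t1, v1⟩, hmem, hmin⟩ := hK.exists_isMinOn hKne continuous_fst.continuousOn
  have ht1 : t1 ∈ Set.Icc s t := hmem.1.1
  have hv1 : v1 ∈ Metric.sphere (0 : Fin d → ℂ) 1 := hmem.1.2
  have hq1 : qf (x t1) v1 ≤ 0 := hmem.2
  have hv1ne : v1 ≠ 0 := by
    intro h
    rw [h, mem_sphere_zero_iff_norm, norm_zero] at hv1
    exact zero_ne_one hv1
  have hst1 : s < t1 := by
    rcases ht1.1.eq_or_lt with h | h
    · exfalso
      have := qf_pos _ h0 v1 hv1ne
      rw [h] at this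
      linarith
    · exact h
  have hbefore : ∀ τ ∈ Set.Ico s t1, (x τ).PosDef := by
    intro τ hτ
    refine posDef_of_sphere _ (hherm τ hτ.1) fun v hv => ?_
    by_contra hc
    have hmem2 : (τ, v) ∈ K := ⟨⟨⟨hτ.1, hτ.2.le.trans ht1.2⟩, hv⟩, not_lt.1 hc⟩
    have h2 : t1 ≤ τ := hmin hmem2
    exact absurd hτ.2 (not_lt.2 h2)
  have hIco : Set.Ico s t1 ∈ 𝓝[<] t1 := Ico_mem_nhdsLT hst1
  -- semidefinite at t1
  have hpsd : (x t1).PosSemidef := by
    refine posSemidef_of_qf _ (hherm t1 ht1.1) fun v => ?_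
    have hc : Tendsto (fun τ => qf (x τ) v) (𝓝[<] t1) (𝓝 (qf (x t1) v)) := by
      have hcc : Continuous (fun τ : ℝ => qf (x τ) v) :=
        hq.comp (continuous_id.prodMk continuous_const)
      exact (hcc.tendsto t1).mono_left nhdsWithin_le_nhds
    refine ge_of_tendsto hc ?_
    filter_upwards [hIco] with τ hτ
    exact qf_nonneg _ (hbefore τ hτ).posSemidef v
  -- determinant bound
  have hmono : MonotoneOn (fun τ => Real.exp (C0 L * τ) * (x τ).det.re) (Set.Ico s t1) := by
    refine mono_of (s := s) (f' := fun r => Real.exp (C0 L * r) * C0 L * (x r).det.re +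
      Real.exp (C0 L * r) * ((x r).det.re * (G L (x r) - C0 L))) (convex_Ico s t1)
      Set.Ico_subset_Ici_self ?_ ?_
    · intro r hr
      have h1 := hasDeriv_det hH hs hx hr.1 (hbefore r hr)
      have h2 : HasDerivAt (fun t : ℝ => Real.exp (C0 L * t)) (Real.exp (C0 L * r) * C0 L) r := by
        have := ((hasDerivAt_id r).const_mul (C0 L)).exp
        simpa using this
      exact h2.hasDerivWithinAt.mul h1
    · intro r hr
      obtain ⟨U, hU, hA⟩ := spectral (x r) (hbefore r hr).isHermitian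
      have hG : 0 ≤ G L (x r) := by
        rw [hA]
        exact G_nonneg L U hU _ (fun i => (hbefore r hr).eigenvalues_pos i)
      have hdet : 0 < (x r).det.re := (Complex.lt_def.1 (hbefore r hr).det_pos).1
      have : Real.exp (C0 L * r) * C0 L * (x r).det.re +
          Real.exp (C0 L * r) * ((x r).det.re * (G L (x r) - C0 L)) =
          Real.exp (C0 L * r) * ((x r).det.re * G L (x r)) := by ring
      rw [this]
      positivity
  have hdet1 : 0 < Real.exp (C0 L * s) * (x s).det.re :=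
    mul_pos (Real.exp_pos _) (Complex.lt_def.1 h0.det_pos).1
  have hlim : Real.exp (C0 L * s) * (x s).det.re ≤ Real.exp (C0 L * t1) * (x t1).det.re := by
    have hcc : Continuous (fun τ : ℝ => Real.exp (C0 L * τ) * (x τ).det.re) := by
      refine Continuous.mul (by fun_prop) (Complex.continuous_re.comp ?_)
      exact Continuous.matrix_det hx.cont
    have hc := (hcc.tendsto t1).mono_left (nhdsWithin_le_nhds (s := Set.Iio t1))
    refine ge_of_tendsto hc ?_
    filter_upwards [hIco] with τ hτ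
    exact hmono ⟨le_rfl, hst1⟩ hτ hτ.1
  have hne : (x t1).det ≠ 0 := by
    intro h
    rw [h, Complex.zero_re, mul_zero] at hlim
    linarith
  have hpd : (x t1).PosDef := hpsd.posDef_iff_det_ne_zero.2 hne
  have := qf_pos _ hpd v1 hv1ne
  linarith

end Pool.Agent.Q110.Lind
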