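import Mathlib
import Pool.Agent.Q110.Lind.Uniq

/-!
# The uniform lower bound after unit time
-/

set_option autoImplicit false

open Matrix MeasureTheory Filter Topology
open scoped ComplexOrder

namespace Pool.Agent.Q110.Lind

variable {d m : ℕ}

theorem det_lower (L : Fin m → Mat d) (hL : Algebra.adjoin ℂ (Set.range L) = ⊤) (hd : 2 ≤ d) :
    ∃ δ : ℝ, 0 < δ ∧ ∀ (H : ℝ → Mat d), Drive H → ∀ (s : ℝ), 0 ≤ s → ∀ (x : ℝ → Mat d),
      Traj L H s x → (x s).PosDef → pr 1 (x s) = 1 → ∀ t, s + 1 ≤ t → δ ≤ (x t).det.re := by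
  obtain ⟨κ, hκ, hcut⟩ := exists_kappa L hL
  have hk : 0 < d * (d - 1) := Nat.mul_pos (by omega) (by omega)
  set k : ℕ := d * (d - 1) with hkdef
  have hkR : (0 : ℝ) < k := by exact_mod_cast hk
  set a : ℝ := 1 / (k : ℝ) with ha
  have ha0 : 0 < a := by positivity
  have hd0 : (0 : ℝ) < d := by exact_mod_cast (by omega : 0 < d)
  set c : ℝ := (1 / (d : ℝ) ^ d) ^ a with hc
  have hc0 : 0 < c := Real.rpow_pos_of_pos (by positivity) _
  have hck : c ^ k = 1 / (d : ℝ) ^ d := by
    rw [hc, ← Real.rpow_natCast, ← Real.rpow_mul (by positivity), ha, one_div_mul_cancel hkR.ne',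
      Real.rpow_one]
  set α : ℝ := a * κ * c with hα
  have hα0 : 0 < α := by positivity
  set β : ℝ := a * (C0 L + 1) with hβ
  have hβ0 : 0 < β := by
    have := C0_nonneg L
    positivity
  have hη : 0 < α / β * (1 - Real.exp (-β)) := by
    have : Real.exp (-β) < 1 := by
      rw [← Real.exp_zero]; exact Real.exp_lt_exp.2 (by linarith)
    have h2 : 0 < 1 - Real.exp (-β) := by linarith
    positivity
  refine ⟨(α / β * (1 - Real.exp (-β))) ^ k, by positivity, ?_⟩
  intro H hH s hs x hx h0 htr t ht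
  have hpos : ∀ τ, s ≤ τ → (x τ).PosDef := fun τ hτ => traj_pos hH hs hx h0 hτ
  have hD : ∀ τ, s ≤ τ → 0 < (x τ).det.re := fun τ hτ => (Complex.lt_def.1 (hpos τ hτ).det_pos).1
  have hvk : ∀ τ, s ≤ τ → ((x τ).det.re ^ a) ^ k = (x τ).det.re := by
    intro τ hτ
    rw [← Real.rpow_natCast, ← Real.rpow_mul (hD τ hτ).le, ha, one_div_mul_cancel hkR.ne',
      Real.rpow_one]
  have hG : ∀ τ, s ≤ τ → c / (x τ).det.re ^ a * κ ≤ G L (x τ) := by
    intro τ hτ
    obtain ⟨U, hU, hA⟩ := spectral (x τ) (hpos τ hτ).isHermitian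
    have hv : 0 < (x τ).det.re ^ a := Real.rpow_pos_of_pos (hD τ hτ) _
    have hsum : ∑ i, (hpos τ hτ).isHermitian.eigenvalues i = 1 := by
      have h1 : pr 1 (x τ) = 1 := (traj_trace hH hs hx hτ).trans htr
      unfold pr at h1
      rw [one_mul, (hpos τ hτ).isHermitian.trace_eq_sum_eigenvalues, Complex.re_sum] at h1
      rw [← h1]
      exact Finset.sum_congr rfl fun i _ => (Complex.ofReal_re _).symm
    have hdet : (x τ).det.re = ∏ i, (hpos τ hτ).isHermitian.eigenvalues i := by
      rw [(hpos τ hτ).isHermitian.det_eq_prod_eigenvalues]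
      have : (∏ i, (((hpos τ hτ).isHermitian.eigenvalues i : ℝ) : ℂ)) =
        ((∏ i, (hpos τ hτ).isHermitian.eigenvalues i : ℝ) : ℂ) := by push_cast; rfl
      exact (congrArg Complex.re this).trans (Complex.ofReal_re _)
    have h3 := G_ge L κ hcut hd U hU (hpos τ hτ).isHermitian.eigenvalues
      (fun i => (hpos τ hτ).eigenvalues_pos i) hsum (c / (x τ).det.re ^ a) (by positivity) (by
        rw [← hdet, mul_pow, ← pow_mul, mul_comm (d - 1) d, ← hkdef, div_pow, hvk τ hτ, hck]
        have h4 := (hD τ hτ).ne'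
        have h5 : ((d : ℝ) ^ d) ≠ 0 := by positivity
        rw [show (x τ).det.re * ((d : ℝ) ^ d * (1 / (d : ℝ) ^ d / (x τ).det.re)) = 1 by
          field_simp])
    rw [← hA] at h3
    exact h3
  have hmono : MonotoneOn (fun τ => Real.exp (β * τ) * ((x τ).det.re ^ a - α / β)) (Set.Ici s) := by
    refine mono_of (f' := fun r => Real.exp (β * r) * β * ((x r).det.re ^ a - α / β) +
      Real.exp (β * r) * ((x r).det.re * (G L (x r) - C0 L) * a * (x r).det.re ^ (a - 1)))
      (convex_Ici s) subset_rfl ?_ ?_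
    · intro r hr
      have h1 := (hasDeriv_det hH hs hx hr (hpos r hr)).rpow_const (p := a)
        (Or.inl (hD r hr).ne')
      have h2 : HasDerivAt (fun t : ℝ => Real.exp (β * t)) (Real.exp (β * r) * β) r := by
        have := ((hasDerivAt_id r).const_mul β).exp
        simpa using this
      exact h2.hasDerivWithinAt.mul (h1.sub_const _)
    · intro r hr
      have hDr := hD r hr
      have hv : 0 < (x r).det.re ^ a := Real.rpow_pos_of_pos hDr _
      have h1 : (x r).det.re * (x r).det.re ^ (a - 1) = (x r).det.re ^ a := by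
        rw [Real.rpow_sub_one hDr.ne']
        field_simp
      have h2 : Real.exp (β * r) * β * ((x r).det.re ^ a - α / β) +
          Real.exp (β * r) * ((x r).det.re * (G L (x r) - C0 L) * a * (x r).det.re ^ (a - 1)) =
          Real.exp (β * r) * (β * (x r).det.re ^ a - α +
            a * (x r).det.re ^ a * (G L (x r) - C0 L)) := by
        have h3 : (x r).det.re * (G L (x r) - C0 L) * a * (x r).det.re ^ (a - 1) =
          a * ((x r).det.re * (x r).det.re ^ (a - 1)) * (G L (x r) - C0 L) := by ring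
        rw [h3, h1]
        field_simp
      rw [h2]
      refine mul_nonneg (Real.exp_pos _).le ?_
      have h4 : a * (x r).det.re ^ a * (c / (x r).det.re ^ a * κ) ≤
          a * (x r).det.re ^ a * G L (x r) := mul_le_mul_of_nonneg_left (hG r hr) (by positivity)
      have h5 : a * (x r).det.re ^ a * (c / (x r).det.re ^ a * κ) = α := by
        rw [hα]; field_simp
      rw [h5] at h4
      have h6 : β * (x r).det.re ^ a - α + a * (x r).det.re ^ a * (G L (x r) - C0 L) =
          (a * (x r).det.re ^ a * G L (x r) - α) + a * (x r).det.re ^ a := by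
        rw [hβ]; ring
      rw [h6]
      have h7 : 0 < a * (x r).det.re ^ a := by positivity
      linarith
  have hst : s ≤ t := by linarith
  have h1 := hmono (Set.mem_Ici.2 le_rfl) (Set.mem_Ici.2 hst) hst
  simp only at h1
  have hvs : 0 < (x s).det.re ^ a := Real.rpow_pos_of_pos (hD s le_rfl) _
  have h2 : -(Real.exp (β * s) * (α / β)) ≤ Real.exp (β * t) * ((x t).det.re ^ a - α / β) := by
    refine le_trans ?_ h1
    have := mul_pos (Real.exp_pos (β * s)) hvs
    linarith
  have h3 : α / β * (1 - Real.exp (-β)) ≤ (x t).det.re ^ a := by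
    have h4 : Real.exp (-(β * t)) * (-(Real.exp (β * s) * (α / β))) ≤
        Real.exp (-(β * t)) * (Real.exp (β * t) * ((x t).det.re ^ a - α / β)) :=
      mul_le_mul_of_nonneg_left h2 (Real.exp_pos _).le
    have h5 : Real.exp (-(β * t)) * (Real.exp (β * t) * ((x t).det.re ^ a - α / β)) =
        (x t).det.re ^ a - α / β := by
      rw [← mul_assoc, ← Real.exp_add, neg_add_cancel, Real.exp_zero, one_mul]
    have h6 : Real.exp (-(β * t)) * (-(Real.exp (β * s) * (α / β))) =
        -(Real.exp (-(β * (t - s))) * (α / β)) := by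
      rw [mul_neg, ← mul_assoc, ← Real.exp_add]
      congr 3
      ring_nf
    rw [h5, h6] at h4
    have h7 : Real.exp (-(β * (t - s))) ≤ Real.exp (-β) := by
      refine Real.exp_le_exp.2 (neg_le_neg ?_)
      have : β * 1 ≤ β * (t - s) := mul_le_mul_of_nonneg_left (by linarith) hβ0.le
      linarith
    have h8 : Real.exp (-(β * (t - s))) * (α / β) ≤ Real.exp (-β) * (α / β) :=
      mul_le_mul_of_nonneg_right h7 (by positivity)
    linarith
  calc (α / β * (1 - Real.exp (-β))) ^ k ≤ ((x t).det.re ^ a) ^ k :=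
        pow_le_pow_left₀ hη.le h3 k
    _ = _ := hvk t hst

/-- eigenvalue bound from the determinant -/
theorem eig_lower (A : Mat d) (hA : A.PosDef) (htr : pr 1 A = 1) (i : Fin d) :
    A.det.re ≤ hA.isHermitian.eigenvalues i := by
  have hsum : ∑ i, hA.isHermitian.eigenvalues i = 1 := by
    unfold pr at htr
    rw [one_mul, hA.isHermitian.trace_eq_sum_eigenvalues, Complex.re_sum] at htr
    rw [← htr]
    exact Finset.sum_congr rfl fun i _ => (Complex.ofReal_re _).symm
  have hdet : A.det.re = ∏ i, hA.isHermitian.eigenvalues i := by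
    rw [hA.isHermitian.det_eq_prod_eigenvalues]
    have : (∏ i, ((hA.isHermitian.eigenvalues i : ℝ) : ℂ)) =
      ((∏ i, hA.isHermitian.eigenvalues i : ℝ) : ℂ) := by push_cast; rfl
    exact (congrArg Complex.re this).trans (Complex.ofReal_re _)
  have hle : ∀ j, hA.isHermitian.eigenvalues j ≤ 1 := by
    intro j
    rw [← hsum]
    exact Finset.single_le_sum (f := hA.isHermitian.eigenvalues)
      (fun l _ => (hA.eigenvalues_pos l).le) (Finset.mem_univ j)
  rw [hdet, ← Finset.mul_prod_erase Finset.univ _ (Finset.mem_univ i)]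
  calc hA.isHermitian.eigenvalues i * ∏ j ∈ Finset.univ.erase i, hA.isHermitian.eigenvalues j
      ≤ hA.isHermitian.eigenvalues i * 1 := by
        refine mul_le_mul_of_nonneg_left ?_ (hA.eigenvalues_pos i).le
        exact Finset.prod_le_one (fun j _ => (hA.eigenvalues_pos j).le) (fun j _ => hle j)
    _ = _ := mul_one _

/-- lower bound of a positive definite matrix by its least eigenvalue, as a quadratic form -/
theorem qf_lower (A : Mat d) (hA : A.IsHermitian) (δ : ℝ) (h : ∀ i, δ ≤ hA.eigenvalues i)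
    (v : Fin d → ℂ) : δ * qf 1 v ≤ qf A v := by
  obtain ⟨U, hU, hAU⟩ := spectral A hA
  have hU' : U * Uᴴ = 1 := mul_eq_one_comm.1 hU
  have hpsd : (A - (δ : ℂ) • (1 : Mat d)).PosSemidef := by
    have h1 : A - (δ : ℂ) • (1 : Mat d) =
        U * Matrix.diagonal (fun i => ((hA.eigenvalues i - δ : ℝ) : ℂ)) * Uᴴ := by
      have h2 : Matrix.diagonal (fun i => ((hA.eigenvalues i - δ : ℝ) : ℂ)) =
          Matrix.diagonal (fun i => (hA.eigenvalues i : ℂ)) - (δ : ℂ) • (1 : Mat d) := by
        ext i j
        by_cases hij : i = j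
        · subst hij; simp
        · simp [hij]
      rw [h2, mul_sub, sub_mul, ← hAU, Matrix.mul_smul, Matrix.smul_mul, mul_one, hU']
    rw [h1]
    refine Matrix.PosSemidef.mul_mul_conjTranspose_same ?_ U
    refine Matrix.PosSemidef.diagonal ?_
    intro i
    show (0 : ℂ) ≤ ((hA.eigenvalues i - δ : ℝ) : ℂ)
    exact_mod_cast sub_nonneg.2 (h i)
  have h3 := qf_nonneg _ hpsd v
  rw [qf_sub, qf_smul] at h3
  linarith

end Pool.Agent.Q110.Lind
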