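import Mathlib
import Pool.Agent.Q110.Lind.Lower

/-!
# The trace norm
-/

set_option autoImplicit false

open Matrix MeasureTheory Filter Topology
open scoped ComplexOrder

namespace Pool.Agent.Q110.Lind

variable {d m : ℕ}

/-- the trace norm: sum of the singular values -/
noncomputable def trNorm (X : Mat d) : ℝ :=
  ∑ i, Real.sqrt ((Matrix.isHermitian_conjTranspose_mul_self X).eigenvalues i)

theorem roots_prod' (f : Fin d → ℂ) : (∏ i, (Polynomial.X - Polynomial.C (f i))).roots =
    Multiset.map f Finset.univ.val := by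
  rw [Polynomial.roots_prod]
  · simp
  · simp [Finset.prod_ne_zero_iff, Polynomial.X_sub_C_ne_zero]

theorem trNorm_herm (X : Mat d) (hX : X.IsHermitian) : trNorm X = ∑ i, |hX.eigenvalues i| := by
  obtain ⟨U, hU, hXU⟩ := spectral X hX
  have hS := Matrix.isHermitian_conjTranspose_mul_self X
  have h1 : Xᴴ * X = (U * Matrix.diagonal (fun i => (((hX.eigenvalues i) ^ 2 : ℝ) : ℂ))) * Uᴴ := by
    rw [hX.eq]
    have h2 : Matrix.diagonal (fun i => (((hX.eigenvalues i) ^ 2 : ℝ) : ℂ)) =
        Matrix.diagonal (fun i => (hX.eigenvalues i : ℂ)) *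
          Matrix.diagonal (fun i => (hX.eigenvalues i : ℂ)) := by
      rw [Matrix.diagonal_mul_diagonal]
      congr 1
      funext i
      push_cast
      ring
    rw [h2]
    calc X * X = (U * Matrix.diagonal (fun i => (hX.eigenvalues i : ℂ)) * Uᴴ) *
          (U * Matrix.diagonal (fun i => (hX.eigenvalues i : ℂ)) * Uᴴ) := by rw [← hXU]
      _ = U * Matrix.diagonal (fun i => (hX.eigenvalues i : ℂ)) * (Uᴴ * U) *
          Matrix.diagonal (fun i => (hX.eigenvalues i : ℂ)) * Uᴴ := by noncomm_ring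
      _ = _ := by rw [hU, mul_one]; noncomm_ring
  have h3 : (Xᴴ * X).charpoly.roots =
      Multiset.map (fun i => (((hX.eigenvalues i) ^ 2 : ℝ) : ℂ)) Finset.univ.val := by
    rw [h1, Matrix.charpoly_mul_comm, ← Matrix.mul_assoc, hU, one_mul, Matrix.charpoly_diagonal,
      roots_prod']
  have h4 := (Matrix.isHermitian_conjTranspose_mul_self X).roots_charpoly_eq_eigenvalues
  rw [h3] at h4
  have h5 := congrArg (fun s : Multiset ℂ => (s.map (fun z => Real.sqrt z.re)).sum) h4
  simp only [Multiset.map_map, Function.comp_def] at h5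
  unfold trNorm
  have h6 : (Multiset.map (fun i => Real.sqrt
      (((RCLike.ofReal ((Matrix.isHermitian_conjTranspose_mul_self X).eigenvalues i) : ℂ)).re))
        Finset.univ.val).sum =
      ∑ i, Real.sqrt ((Matrix.isHermitian_conjTranspose_mul_self X).eigenvalues i) := by
    refine Finset.sum_congr rfl fun i _ => ?_
    congr 1
  rw [← h6, ← h5]
  refine Finset.sum_congr rfl fun i _ => ?_
  rw [Complex.ofReal_re, Real.sqrt_sq_eq_abs]

theorem pr_one_conj (U A : Mat d) (hU : Uᴴ * U = 1) : pr 1 (Uᴴ * A * U) = pr 1 A := by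
  unfold pr
  rw [one_mul, one_mul, Matrix.trace_mul_comm, ← Matrix.mul_assoc, mul_eq_one_comm.1 hU, one_mul]

theorem pr_one_conj' (U A : Mat d) (hU : Uᴴ * U = 1) : pr 1 (U * A * Uᴴ) = pr 1 A := by
  unfold pr
  rw [one_mul, one_mul, Matrix.trace_mul_comm, ← Matrix.mul_assoc, hU, one_mul]

theorem trNorm_sub_le (A B : Mat d) (hA : A.PosSemidef) (hB : B.PosSemidef) :
    trNorm (A - B) ≤ pr 1 A + pr 1 B := by
  have hX : (A - B).IsHermitian := hA.isHermitian.sub hB.isHermitian
  rw [trNorm_herm _ hX]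
  obtain ⟨U, hU, hXU⟩ := spectral _ hX
  have h1 : Uᴴ * (A - B) * U = Matrix.diagonal (fun i => (hX.eigenvalues i : ℂ)) := by
    calc Uᴴ * (A - B) * U = Uᴴ * (U * Matrix.diagonal (fun i => (hX.eigenvalues i : ℂ)) * Uᴴ) * U := by
          rw [← hXU]
      _ = (Uᴴ * U) * Matrix.diagonal (fun i => (hX.eigenvalues i : ℂ)) * (Uᴴ * U) := by noncomm_ring
      _ = _ := by rw [hU, one_mul, mul_one]
  have hA' := hA.conjTranspose_mul_mul_same U
  have hB' := hB.conjTranspose_mul_mul_same U
  have h2 : ∀ i, |hX.eigenvalues i| ≤ ((Uᴴ * A * U) i i).re + ((Uᴴ * B * U) i i).re := by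
    intro i
    have h3 : hX.eigenvalues i = ((Uᴴ * A * U) i i).re - ((Uᴴ * B * U) i i).re := by
      have h4 := congrArg (fun M : Mat d => (M i i).re) h1
      simp only [Matrix.diagonal_apply_eq, Complex.ofReal_re] at h4
      rw [← h4, mul_sub, sub_mul, Matrix.sub_apply, Complex.sub_re]
    have h5 : 0 ≤ ((Uᴴ * A * U) i i).re := (Complex.le_def.1 hA'.diag_nonneg).1
    have h6 : 0 ≤ ((Uᴴ * B * U) i i).re := (Complex.le_def.1 hB'.diag_nonneg).1
    rw [h3, abs_le]
    constructor <;> linarith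
  refine (Finset.sum_le_sum fun i _ => h2 i).trans ?_
  rw [Finset.sum_add_distrib, ← Complex.re_sum, ← Complex.re_sum]
  have h7 : (∑ i, (Uᴴ * A * U) i i).re = pr 1 A := by
    rw [← pr_one_conj U A hU]
    unfold pr
    rw [one_mul]; rfl
  have h8 : (∑ i, (Uᴴ * B * U) i i).re = pr 1 B := by
    rw [← pr_one_conj U B hU]
    unfold pr
    rw [one_mul]; rfl
  rw [h7, h8]

theorem diag_psd (U : Mat d) (f : Fin d → ℝ) (hf : ∀ i, 0 ≤ f i) :
    (U * Matrix.diagonal (fun i => (f i : ℂ)) * Uᴴ).PosSemidef := by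
  refine Matrix.PosSemidef.mul_mul_conjTranspose_same ?_ U
  refine Matrix.PosSemidef.diagonal ?_
  intro i
  show (0 : ℂ) ≤ ((f i : ℝ) : ℂ)
  exact_mod_cast hf i

theorem pr_diag (U : Mat d) (hU : Uᴴ * U = 1) (f : Fin d → ℝ) :
    pr 1 (U * Matrix.diagonal (fun i => (f i : ℂ)) * Uᴴ) = ∑ i, f i := by
  rw [pr_one_conj' U _ hU]
  unfold pr
  rw [one_mul, Matrix.trace_diagonal, Complex.re_sum]
  exact Finset.sum_congr rfl fun i _ => Complex.ofReal_re _

theorem jordan (X : Mat d) (hX : X.IsHermitian) (htr : pr 1 X = 0) :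
    ∃ A B : Mat d, A.PosSemidef ∧ B.PosSemidef ∧ X = A - B ∧ pr 1 A = trNorm X / 2 ∧
      pr 1 B = trNorm X / 2 := by
  obtain ⟨U, hU, hXU⟩ := spectral X hX
  have hsum : ∑ i, hX.eigenvalues i = 0 := by
    rw [← htr]
    conv_rhs => rw [hXU]
    rw [pr_diag U hU]
  have hA : pr 1 (U * Matrix.diagonal (fun i => ((max (hX.eigenvalues i) 0 : ℝ) : ℂ)) * Uᴴ) =
      ∑ i, max (hX.eigenvalues i) 0 := pr_diag U hU _
  have hB : pr 1 (U * Matrix.diagonal (fun i => ((max (-hX.eigenvalues i) 0 : ℝ) : ℂ)) * Uᴴ) =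
      ∑ i, max (-hX.eigenvalues i) 0 := pr_diag U hU _
  have h1 : ∑ i, max (hX.eigenvalues i) 0 - ∑ i, max (-hX.eigenvalues i) 0 = 0 := by
    rw [← Finset.sum_sub_distrib]
    refine (Finset.sum_congr rfl fun i _ => ?_).trans hsum
    rcases le_total (hX.eigenvalues i) 0 with h | h
    · rw [max_eq_right h, max_eq_left (by linarith)]; ring
    · rw [max_eq_left h, max_eq_right (by linarith)]; ring
  have h2 : ∑ i, max (hX.eigenvalues i) 0 + ∑ i, max (-hX.eigenvalues i) 0 = trNorm X := by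
    rw [← Finset.sum_add_distrib, trNorm_herm X hX]
    exact Finset.sum_congr rfl fun i _ => by
      rcases le_total (hX.eigenvalues i) 0 with h | h
      · rw [max_eq_right h, max_eq_left (by linarith), abs_of_nonpos h]; ring
      · rw [max_eq_left h, max_eq_right (by linarith), abs_of_nonneg h]; ring
  refine ⟨_, _, diag_psd U (fun i => max (hX.eigenvalues i) 0) (fun i => le_max_right _ _),
    diag_psd U (fun i => max (-hX.eigenvalues i) 0) (fun i => le_max_right _ _), ?_, ?_, ?_⟩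
  · rw [← sub_mul, ← mul_sub, Matrix.diagonal_sub]
    conv_lhs => rw [hXU]
    congr 2
    congr 1
    funext i
    rw [← Complex.ofReal_sub]
    congr 1
    rcases le_total (hX.eigenvalues i) 0 with h | h
    · rw [max_eq_right h, max_eq_left (by linarith)]; ring
    · rw [max_eq_left h, max_eq_right (by linarith)]; ring
  · rw [hA]; linarith
  · rw [hB]; linarith

theorem trNorm_nonneg (X : Mat d) : 0 ≤ trNorm X :=
  Finset.sum_nonneg fun _ _ => Real.sqrt_nonneg _

end Pool.Agent.Q110.Lind
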